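import Pool.Agent.Lib.MP_305fdd_al.F2.TF.Stm

/-!
# MP_305fdd_al (`F_2`), section A: the piece a1 (Kunz count)
-/

set_option autoImplicit false

namespace Pool.Agent.F2TF

open MvPolynomial Matrix
open Pool.Agent.CC (IsTR)

/-- reduced exponents -/
noncomputable def p_compcard_e {p d : ℕ} (α : Fin d → Fin p) : Fin d →₀ ℕ :=
  Finsupp.equivFunOnFinite.symm fun i => (α i : ℕ)

theorem p_compcard_e_apply {p d : ℕ} (α : Fin d → Fin p) (i : Fin d) :
    p_compcard_e α i = (α i : ℕ) := rfl

theorem p_compcard_ex {p d : ℕ} [hp : Fact p.Prime] (m : Fin d →₀ ℕ) :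
    ∃ (w : Fin d →₀ ℕ) (α : Fin d → Fin p), m = p • w + p_compcard_e α := by
  refine ⟨m.mapRange (fun x => x / p) (Nat.zero_div p),
    fun i => ⟨m i % p, Nat.mod_lt _ hp.out.pos⟩, ?_⟩
  ext i
  rw [Finsupp.add_apply, Finsupp.smul_apply, Finsupp.mapRange_apply, p_compcard_e_apply,
    smul_eq_mul]
  exact (Nat.div_add_mod (m i) p).symm

/-- the coefficients of a sum of `expand p (c α) * t ^ α` -/
theorem p_compcard_coeff {p d : ℕ} [hp : Fact p.Prime] (c : (Fin d → Fin p) → Pol p d)
    (w : Fin d →₀ ℕ) (β : Fin d → Fin p) :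
    coeff (p • w + p_compcard_e β) (∑ α, expand p (c α) * monomial (p_compcard_e α) 1) =
      coeff w (c β) := by
  rw [coeff_sum, Finset.sum_eq_single β]
  · rw [coeff_mul_monomial', if_pos le_add_self, add_tsub_cancel_right,
      coeff_expand_smul _ hp.out.ne_zero, mul_one]
  · intro α _ hα
    rw [coeff_mul_monomial']
    split_ifs with h
    · obtain ⟨i, hi⟩ : ∃ i, α i ≠ β i := by
        by_contra hcon
        push Not at hcon
        exact hα (funext hcon)
      rw [coeff_expand_of_not_dvd _ (i := i), zero_mul]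
      intro hdvd
      have h1 := h i
      rw [Finsupp.tsub_apply, Finsupp.add_apply, Finsupp.smul_apply, smul_eq_mul,
        p_compcard_e_apply, p_compcard_e_apply] at hdvd
      rw [Finsupp.add_apply, Finsupp.smul_apply, smul_eq_mul,
        p_compcard_e_apply, p_compcard_e_apply] at h1
      obtain ⟨q, hq⟩ := hdvd
      have h2 : p * w i + (β i : ℕ) = (α i : ℕ) + p * q := by omega
      have h3 := congrArg (· % p) h2
      simp only [Nat.mul_add_mod, Nat.add_mul_mod_self_left, Nat.mod_eq_of_lt (α i).2,
        Nat.mod_eq_of_lt (β i).2] at h3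
      exact hi (Fin.ext h3.symm)
    · rfl
  · intro h
    exact absurd (Finset.mem_univ β) h

/-- decomposition -/
theorem p_compcard_dec {p d : ℕ} [hp : Fact p.Prime] (a : Pol p d) :
    a = ∑ α : Fin d → Fin p, expand p (comp (p_compcard_e α) a) *
      monomial (p_compcard_e α) 1 := by
  ext m
  obtain ⟨w, β, rfl⟩ := p_compcard_ex (p := p) m
  rw [p_compcard_coeff (fun α => comp (p_compcard_e α) a), coeff_comp]

/-- semilinearity -/
theorem p_compcard_mul {p d : ℕ} [hp : Fact p.Prime] (α : Fin d → Fin p) (b a : Pol p d) :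
    comp (p_compcard_e α) (b * expand p a) = comp (p_compcard_e α) b * a := by
  induction a using MvPolynomial.induction_on' with
  | monomial v c =>
    ext w
    rw [coeff_comp, expand_monomial, coeff_mul_monomial', coeff_mul_monomial']
    have hiff : p • v ≤ p • w + p_compcard_e α ↔ v ≤ w := by
      constructor
      · intro h i
        have h1 := h i
        rw [Finsupp.add_apply, Finsupp.smul_apply, Finsupp.smul_apply, smul_eq_mul, smul_eq_mul,
          p_compcard_e_apply] at h1
        have h2 := (α i).2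
        by_contra hcon
        push Not at hcon
        have h3 : p * (w i + 1) ≤ p * v i := Nat.mul_le_mul_left p hcon
        rw [mul_add, mul_one] at h3
        omega
      · intro h i
        have h1 := Nat.mul_le_mul_left p (h i)
        rw [Finsupp.add_apply, Finsupp.smul_apply, Finsupp.smul_apply, smul_eq_mul, smul_eq_mul]
        omega
    by_cases h : v ≤ w
    · rw [if_pos (hiff.2 h), if_pos h, coeff_comp]
      congr 2
      ext i
      have h1 := h i
      simp only [Finsupp.add_apply, Finsupp.smul_apply, Finsupp.tsub_apply, smul_eq_mul]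
      rw [Nat.mul_sub]
      have h2 := Nat.mul_le_mul_left p h1
      omega
    · rw [if_neg (fun h' => h (hiff.1 h')), if_neg h]
  | add a a' h h' =>
    rw [map_add, mul_add, map_add, h, h', mul_add]

theorem p_compcard_pow {p d : ℕ} [hp : Fact p.Prime] (a : Pol p d) : a ^ p = expand p a :=
  (expand_zmod a).symm

/-- the kernel -/
theorem p_compcard_ker {p d : ℕ} [hp : Fact p.Prime] (J : Ideal (Pol p d)) (a : Pol p d) :
    a ∈ fpow p J ↔ ∀ α : Fin d → Fin p, comp (p_compcard_e α) a ∈ J := by
  constructor
  · intro ha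
    have h1 : ∀ (b : Pol p d) (α : Fin d → Fin p), comp (p_compcard_e α) (b * a) ∈ J := by
      unfold fpow at ha
      induction ha using Submodule.span_induction with
      | mem x hx =>
        obtain ⟨y, hy, rfl⟩ := hx
        intro b α
        change comp (p_compcard_e α) (b * y ^ p) ∈ J
        rw [p_compcard_pow, p_compcard_mul]
        exact J.mul_mem_left _ hy
      | zero =>
        intro b α
        rw [mul_zero, map_zero]
        exact J.zero_mem
      | add x y _ _ hx hy =>
        intro b α
        rw [mul_add, map_add]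
        exact J.add_mem (hx b α) (hy b α)
      | smul c x _ hx =>
        intro b α
        rw [smul_eq_mul, ← mul_assoc]
        exact hx (b * c) α
    intro α
    have h2 := h1 1 α
    rwa [one_mul] at h2
  · intro h
    rw [p_compcard_dec a]
    refine Ideal.sum_mem _ fun α _ => Ideal.mul_mem_right _ _ ?_
    rw [← p_compcard_pow]
    exact Ideal.subset_span ⟨_, h α, rfl⟩

theorem p_compcard : S_compcard := by
  intro p d hp J hJ
  obtain ⟨Θ, hΘ⟩ : ∃ Θ : Pol p d → ((Fin d → Fin p) → Pol p d ⧸ J),
      ∀ a α, Θ a α = Ideal.Quotient.mk J (comp (p_compcard_e α) a) :=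
    ⟨fun a α => Ideal.Quotient.mk J (comp (p_compcard_e α) a), fun _ _ => rfl⟩
  have hsurj : Function.Surjective Θ := by
    intro c
    refine ⟨∑ α, expand p ((c α).out) * monomial (p_compcard_e α) 1, ?_⟩
    funext β
    rw [hΘ]
    have h1 : comp (p_compcard_e β)
        (∑ α, expand p ((c α).out) * monomial (p_compcard_e α) 1) = (c β).out := by
      ext w
      rw [coeff_comp, p_compcard_coeff (fun α => (c α).out)]
    rw [h1]
    exact Ideal.Quotient.mk_out (c β)
  have heq : ∀ a b, Θ a = Θ b ↔ Ideal.Quotient.mk (fpow p J) a = Ideal.Quotient.mk (fpow p J) b := by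
    intro a b
    rw [Ideal.Quotient.eq, p_compcard_ker, funext_iff]
    refine forall_congr' fun α => ?_
    rw [hΘ, hΘ, Ideal.Quotient.eq, map_sub]
  obtain ⟨f, hf⟩ : ∃ f : Pol p d ⧸ fpow p J → ((Fin d → Fin p) → Pol p d ⧸ J),
      Function.Bijective f := by
    refine ⟨fun x => Θ x.out, ?_, ?_⟩
    · intro x y hxy
      have h1 := (heq _ _).1 hxy
      rwa [Ideal.Quotient.mk_out, Ideal.Quotient.mk_out] at h1
    · intro c
      obtain ⟨a, ha⟩ := hsurj c
      refine ⟨Ideal.Quotient.mk _ a, ?_⟩
      rw [← ha]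
      exact (heq _ _).2 (Ideal.Quotient.mk_out _)
  refine ⟨Finite.of_injective f hf.1, ?_⟩
  rw [Nat.card_congr (Equiv.ofBijective f hf), Nat.card_fun, Nat.card_fun, Nat.card_fin,
    Nat.card_fin]

end Pool.Agent.F2TF
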