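import Pool.Agent.Lib.MP_305fdd_al.F2.TF.Stm

set_option autoImplicit false

namespace Pool.Agent.F2TF

open MvPolynomial
open Pool.Agent.CC (IsTR)

theorem p_count_fpow_one {R : Type} [CommRing R] (I : Ideal R) : fpow 1 I = I := by
  unfold fpow
  simp

theorem p_count_fpow_mem {R : Type} [CommRing R] {q : ℕ} {I : Ideal R} {a : R} (ha : a ∈ I) :
    a ^ q ∈ fpow q I := Ideal.subset_span ⟨a, ha, rfl⟩

theorem p_count_fpow_le {R : Type} [CommRing R] {q : ℕ} {I K : Ideal R}
    (h : ∀ a ∈ I, a ^ q ∈ K) : fpow q I ≤ K := by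
  unfold fpow
  rw [Ideal.span_le]
  rintro _ ⟨a, ha, rfl⟩
  exact h a ha

theorem p_count_fpow_succ {p : ℕ} [hp : Fact p.Prime] {R : Type} [CommRing R]
    [Algebra (ZMod p) R] (I : Ideal R) (n : ℕ) :
    fpow p (fpow (p ^ n) I) = fpow (p ^ (n + 1)) I := by
  rcases subsingleton_or_nontrivial R with hR | hR
  · exact Subsingleton.elim _ _
  have hchar : CharP R p := charP_of_injective_algebraMap (algebraMap (ZMod p) R).injective p
  apply le_antisymm
  · apply p_count_fpow_le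
    intro a ha
    unfold fpow at ha
    induction ha using Submodule.span_induction with
    | mem x hx =>
      obtain ⟨b, hb, rfl⟩ := hx
      show (b ^ p ^ n) ^ p ∈ _
      rw [← pow_mul, ← pow_succ]
      exact p_count_fpow_mem hb
    | zero => rw [zero_pow hp.out.ne_zero]; exact Ideal.zero_mem _
    | add x y _ _ hx hy => rw [add_pow_char]; exact Ideal.add_mem _ hx hy
    | smul c x _ hx =>
      rw [smul_eq_mul, mul_pow]
      exact Ideal.mul_mem_left _ _ hx
  · apply p_count_fpow_le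
    intro a ha
    rw [pow_succ, pow_mul]
    exact p_count_fpow_mem (p_count_fpow_mem ha)

theorem p_count_finite {p : ℕ} {R : Type} [CommRing R]
    [IsNoetherianRing R] (I : Ideal R) (hI : Finite (R ⧸ I)) : Finite (R ⧸ fpow p I) := by
  have h1 : I ≤ (fpow p I).radical := fun a ha => ⟨p, p_count_fpow_mem ha⟩
  obtain ⟨n, hn⟩ := Ideal.exists_pow_le_of_le_radical_of_fg h1 (IsNoetherian.noetherian I)
  have h2 : Finite (R ⧸ I ^ n) := Ideal.finite_quotient_pow (IsNoetherian.noetherian I) n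
  exact Finite.of_surjective (Ideal.Quotient.factor hn) (Ideal.Quotient.factor_surjective hn)

section

variable {p m : ℕ} [hp : Fact p.Prime] {B : Type} [CommRing B] [Algebra (ZMod p) B]
  {ev : ∀ J : {J : Ideal (Pol p m) // Finite (Pol p m ⧸ J)}, B →ₐ[ZMod p] Pol p m ⧸ J.1}

theorem p_count_ker_le (h : IsTR p (Pol p m) B ev)
    (J₁ J₂ : {J : Ideal (Pol p m) // Finite (Pol p m ⧸ J)}) (hle : J₁.1 ≤ J₂.1) :
    RingHom.ker (ev J₁) ≤ RingHom.ker (ev J₂) := by
  intro b hb
  rw [RingHom.mem_ker] at hb ⊢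
  rw [← h.compat J₁ J₂ hle b, hb, map_zero]

theorem p_count_le_of_ker_le (h : IsTR p (Pol p m) B ev)
    (J₁ J₂ : {J : Ideal (Pol p m) // Finite (Pol p m ⧸ J)})
    (hle : RingHom.ker (ev J₁) ≤ RingHom.ker (ev J₂)) : J₁.1 ≤ J₂.1 := by
  have hf1 := J₁.2
  have hf2 := J₂.2
  have hfin : Finite (Pol p m ⧸ (J₁.1 ⊓ J₂.1)) := by
    have hinj : Function.Injective (fun x : Pol p m ⧸ (J₁.1 ⊓ J₂.1) =>
        (Ideal.Quotient.factor (inf_le_left : J₁.1 ⊓ J₂.1 ≤ J₁.1) x,
          Ideal.Quotient.factor (inf_le_right : J₁.1 ⊓ J₂.1 ≤ J₂.1) x)) := by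
      intro x y hxy
      obtain ⟨a, rfl⟩ := Ideal.Quotient.mk_surjective x
      obtain ⟨b, rfl⟩ := Ideal.Quotient.mk_surjective y
      simp only [Ideal.Quotient.factor_mk, Prod.mk.injEq, Ideal.Quotient.eq] at hxy
      rw [Ideal.Quotient.eq]
      exact hxy
    exact Finite.of_injective _ hinj
  set J₃ : {J : Ideal (Pol p m) // Finite (Pol p m ⧸ J)} := ⟨J₁.1 ⊓ J₂.1, hfin⟩ with hJ₃
  have h3 : RingHom.ker (ev J₃) = RingHom.ker (ev J₁) := by
    apply le_antisymm
    · exact p_count_ker_le h J₃ J₁ inf_le_left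
    · intro b hb
      have hb2 := hle hb
      rw [RingHom.mem_ker] at hb hb2 ⊢
      obtain ⟨a, ha⟩ := Ideal.Quotient.mk_surjective (ev J₃ b)
      have e1 := h.compat J₃ J₁ inf_le_left b
      have e2 := h.compat J₃ J₂ inf_le_right b
      rw [← ha, hb, Ideal.Quotient.factor_mk, Ideal.Quotient.eq_zero_iff_mem] at e1
      rw [← ha, hb2, Ideal.Quotient.factor_mk, Ideal.Quotient.eq_zero_iff_mem] at e2
      rw [← ha, Ideal.Quotient.eq_zero_iff_mem]
      exact ⟨e1, e2⟩
  have h4 := h.inj _ _ h3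
  have h5 : J₁.1 ⊓ J₂.1 = J₁.1 := congrArg Subtype.val h4
  exact inf_eq_left.1 h5

theorem p_count_card_ker (h : IsTR p (Pol p m) B ev)
    (J : {J : Ideal (Pol p m) // Finite (Pol p m ⧸ J)}) :
    Nat.card (B ⧸ RingHom.ker (ev J)) = Nat.card (Pol p m ⧸ J.1) :=
  Nat.card_congr (RingHom.quotientKerEquivOfSurjective (f := (ev J).toRingHom) (h.surj J)).toEquiv

theorem p_count_step (h_compcard : S_compcard) (h : IsTR p (Pol p m) B ev) (I : Ideal B)
    (hI : Finite (B ⧸ I)) : Finite (B ⧸ fpow p I) ∧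
      Nat.card (B ⧸ fpow p I) = Nat.card (B ⧸ I) ^ (p ^ m) := by
  have hft := h.fg
  have hno : IsNoetherianRing B := Algebra.FiniteType.isNoetherianRing (ZMod p) B
  have hfin := p_count_finite (p := p) I hI
  refine ⟨hfin, ?_⟩
  obtain ⟨J, hJ⟩ := h.fin I hI
  obtain ⟨J', hJ'⟩ := h.fin (fpow p I) hfin
  obtain ⟨hF, hcard⟩ := h_compcard p m J.1 J.2
  set J'' : {J : Ideal (Pol p m) // Finite (Pol p m ⧸ J)} := ⟨fpow p J.1, hF⟩ with hJ''
  have hle : fpow p I ≤ I := p_count_fpow_le fun a ha => Ideal.pow_mem_of_mem _ ha _ hp.out.pos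
  have hle' : J'.1 ≤ J.1 := by
    apply p_count_le_of_ker_le h
    rw [← hJ, ← hJ']
    exact hle
  have hle'' : J''.1 ≤ J.1 := p_count_fpow_le fun a ha => Ideal.pow_mem_of_mem _ ha _ hp.out.pos
  have ha : fpow p J.1 ≤ J'.1 := by
    apply p_count_fpow_le
    intro a ha
    obtain ⟨b, hb⟩ := h.surj J' (Ideal.Quotient.mk _ a)
    have h1 : b ∈ I := by
      rw [hJ, RingHom.mem_ker, ← h.compat J' J hle' b, hb, Ideal.Quotient.factor_mk,
        Ideal.Quotient.eq_zero_iff_mem]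
      exact ha
    have h2 : b ^ p ∈ RingHom.ker (ev J') := by
      rw [← hJ']
      exact p_count_fpow_mem h1
    rw [RingHom.mem_ker, map_pow, hb, ← map_pow, Ideal.Quotient.eq_zero_iff_mem] at h2
    exact h2
  have hb : J'.1 ≤ fpow p J.1 := by
    have h1 : J'.1 ≤ J''.1 := by
      apply p_count_le_of_ker_le h
      rw [← hJ']
      apply p_count_fpow_le
      intro b hb
      rw [hJ, RingHom.mem_ker] at hb
      obtain ⟨a, ha⟩ := Ideal.Quotient.mk_surjective (ev J'' b)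
      have e1 := h.compat J'' J hle'' b
      rw [← ha, hb, Ideal.Quotient.factor_mk, Ideal.Quotient.eq_zero_iff_mem] at e1
      rw [RingHom.mem_ker, map_pow, ← ha, ← map_pow, Ideal.Quotient.eq_zero_iff_mem]
      exact p_count_fpow_mem e1
    exact h1
  have heq : J'.1 = fpow p J.1 := le_antisymm hb ha
  rw [hJ', p_count_card_ker h, heq, hcard, hJ, p_count_card_ker h]

end

theorem p_count (h_compcard : S_compcard) : S_count := by
  intro p m _ B _ _ ev h I hI n
  induction n with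
  | zero =>
    rw [pow_zero, Nat.mul_zero, pow_zero, pow_one, p_count_fpow_one]
    exact ⟨hI, rfl⟩
  | succ n ih =>
    obtain ⟨h1, h2⟩ := ih
    obtain ⟨h3, h4⟩ := p_count_step h_compcard h (fpow (p ^ n) I) h1
    rw [← p_count_fpow_succ]
    refine ⟨h3, ?_⟩
    rw [h4, h2, ← pow_mul, ← pow_add]
    congr 1

end Pool.Agent.F2TF
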