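import Pool.Agent.Lib.MP_305fdd_al.F2.TF.Stm

/-!
# MP_305fdd_al (`F_2`), section A, piece a4
-/

set_option autoImplicit false

namespace Pool.Agent.F2TF

open nonZeroDivisors in
theorem p_dual : S_dual := by
  intro S B _ _ _ _ _ hinj
  classical
  -- the localised module is nonzero at `1`
  let V := LocalizedModule S⁰ B
  let j : B →ₗ[S] V := LocalizedModule.mkLinearMap S⁰ B
  have hj : j 1 ≠ 0 := by
    intro h
    rw [LocalizedModule.mkLinearMap_apply, ← LocalizedModule.zero_mk (1 : S⁰),
      LocalizedModule.mk_eq] at h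
    obtain ⟨u, hu⟩ := h
    simp only [one_smul, smul_zero] at hu
    have hu' : (u : S) • (1 : B) = 0 := hu
    rw [← Algebra.algebraMap_eq_smul_one] at hu'
    exact nonZeroDivisors.coe_ne_zero u (hinj (by rw [hu', map_zero]))
  obtain ⟨f, hf⟩ : ∃ f : Module.Dual (FractionRing S) V, f (j 1) ≠ 0 := by
    by_contra h
    push Not at h
    exact hj ((Module.forall_dual_apply_eq_zero_iff (FractionRing S) (j 1)).mp h)
  let g : B →ₗ[S] FractionRing S := (f.restrictScalars S) ∘ₗ j
  obtain ⟨G, hG⟩ := (Module.Finite.fg_top : (⊤ : Submodule S B).FG)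
  obtain ⟨s, hs⟩ := IsLocalization.exist_integer_multiples_of_finset S⁰ (G.image g)
  have hall : ∀ b : B, (s : S) • g b ∈ LinearMap.range (Algebra.linearMap S (FractionRing S)) := by
    intro b
    have hb : b ∈ Submodule.span S (G : Set B) := by rw [hG]; trivial
    induction hb using Submodule.span_induction with
    | mem x hx =>
      obtain ⟨y, hy⟩ := hs (g x) (Finset.mem_image_of_mem _ hx)
      exact ⟨y, hy⟩
    | zero => simp
    | add x y _ _ hx hy =>
      rw [map_add, smul_add]
      exact Submodule.add_mem _ hx hy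
    | smul a x _ hx =>
      rw [map_smul, smul_comm]
      exact Submodule.smul_mem _ a hx
  have hi : Function.Injective (Algebra.linearMap S (FractionRing S)) :=
    IsFractionRing.injective S (FractionRing S)
  let e := LinearEquiv.ofInjective (Algebra.linearMap S (FractionRing S)) hi
  refine ⟨e.symm.toLinearMap ∘ₗ (((s : S) • g).codRestrict _ hall), fun h => ?_⟩
  have h1 : (((s : S) • g).codRestrict _ hall) 1 = 0 := by
    have := congrArg e h
    simpa using this
  have h2 : (s : S) • g 1 = 0 := congrArg Subtype.val h1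
  rcases smul_eq_zero.mp h2 with h3 | h3
  · exact nonZeroDivisors.coe_ne_zero s h3
  · exact hf h3

end Pool.Agent.F2TF
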