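import Pool.Agent.Lib.MP_305fdd_al.F2.TF.P.a2

set_option autoImplicit false

namespace Pool.Agent.F2TF

open MvPolynomial
open Pool.Agent.CC (IsTR)

/-- iterated Kunz count -/
theorem p_dim_iter (h_compcard : S_compcard) (p d : ℕ) [Fact p.Prime] (N : Ideal (Pol p d))
    (hN : Finite (Pol p d ⧸ N)) (n : ℕ) : Finite (Pol p d ⧸ fpow (p ^ n) N) ∧
      Nat.card (Pol p d ⧸ fpow (p ^ n) N) = Nat.card (Pol p d ⧸ N) ^ (p ^ (d * n)) := by
  induction n with
  | zero =>
    rw [pow_zero, Nat.mul_zero, pow_zero, pow_one, p_count_fpow_one]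
    exact ⟨hN, rfl⟩
  | succ n ih =>
    obtain ⟨h1, h2⟩ := ih
    obtain ⟨h3, h4⟩ := h_compcard p d (fpow (p ^ n) N) h1
    rw [← p_count_fpow_succ]
    refine ⟨h3, ?_⟩
    rw [h4, h2, ← pow_mul, ← pow_add]
    congr 1

/-- `fpow` commutes with extension of ideals -/
theorem p_dim_map {p : ℕ} [hp : Fact p.Prime] {S B : Type} [CommRing S] [CommRing B]
    [Algebra (ZMod p) B] (g : S →+* B) (N : Ideal S) (n : ℕ) :
    fpow (p ^ n) (N.map g) = (fpow (p ^ n) N).map g := by
  rcases subsingleton_or_nontrivial B with hR | hR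
  · exact Subsingleton.elim _ _
  have hchar : CharP B p := charP_of_injective_algebraMap (algebraMap (ZMod p) B).injective p
  apply le_antisymm
  · apply p_count_fpow_le
    intro a ha
    unfold Ideal.map at ha
    induction ha using Submodule.span_induction with
    | mem x hx =>
      obtain ⟨b, hb, rfl⟩ := hx
      rw [← map_pow]
      exact Ideal.mem_map_of_mem g (p_count_fpow_mem hb)
    | zero => rw [zero_pow (pow_ne_zero n hp.out.ne_zero)]; exact Ideal.zero_mem _
    | add x y _ _ hx hy => rw [add_pow_char_pow]; exact Ideal.add_mem _ hx hy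
    | smul c x _ hx =>
      rw [smul_eq_mul, mul_pow]
      exact Ideal.mul_mem_left _ _ hx
  · rw [Ideal.map_le_iff_le_comap]
    apply p_count_fpow_le
    intro a ha
    rw [Ideal.mem_comap, map_pow]
    exact p_count_fpow_mem (Ideal.mem_map_of_mem g ha)

section

variable {S B : Type} [CommRing S] [CommRing B] [Algebra S B]

theorem p_dim_lin (l : B →ₗ[S] S) (J : Ideal S) {x : B} (hx : x ∈ J.map (algebraMap S B)) :
    l x ∈ J := by
  have key : ∀ b : B, l (b * x) ∈ J := by
    unfold Ideal.map at hx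
    induction hx using Submodule.span_induction with
    | mem x hx =>
      obtain ⟨a, ha, rfl⟩ := hx
      intro b
      rw [mul_comm, ← Algebra.smul_def, map_smul, smul_eq_mul]
      exact Ideal.mul_mem_right _ _ ha
    | zero => intro b; rw [mul_zero, map_zero]; exact J.zero_mem
    | add x y _ _ hx hy => intro b; rw [mul_add, map_add]; exact J.add_mem (hx b) (hy b)
    | smul c x _ hx =>
      intro b
      rw [smul_eq_mul, ← mul_assoc]
      exact hx _
  have := key 1
  rwa [one_mul] at this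

theorem p_dim_le_left (l : B →ₗ[S] S) (J : Ideal S) (hJ : J ⊔ Ideal.span {l 1} = ⊤)
    [Finite (B ⧸ J.map (algebraMap S B))] :
    Nat.card (S ⧸ J) ≤ Nat.card (B ⧸ J.map (algebraMap S B)) := by
  have h1 : (1 : S) ∈ Ideal.span {l 1} ⊔ J := by rw [sup_comm, hJ]; trivial
  obtain ⟨u, j, hj, huj⟩ := Ideal.mem_span_singleton_sup.1 h1
  let f : B ⧸ J.map (algebraMap S B) → S ⧸ J := fun x => Ideal.Quotient.mk J (l (Quotient.out x))
  apply Nat.card_le_card_of_surjective f
  intro y
  obtain ⟨s, rfl⟩ := Ideal.Quotient.mk_surjective y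
  refine ⟨Ideal.Quotient.mk _ ((s * u) • (1 : B)), ?_⟩
  obtain ⟨x, hx, hx'⟩ : ∃ x : B, f (Ideal.Quotient.mk _ ((s * u) • (1 : B))) =
      Ideal.Quotient.mk J (l x) ∧ x - (s * u) • (1 : B) ∈ J.map (algebraMap S B) := by
    refine ⟨Quotient.out (Ideal.Quotient.mk (J.map (algebraMap S B)) ((s * u) • (1 : B))), rfl, ?_⟩
    rw [← Ideal.Quotient.eq]
    exact Quotient.out_eq _
  have h3 := p_dim_lin l J hx'
  rw [map_sub, map_smul, smul_eq_mul] at h3
  rw [hx, Ideal.Quotient.eq]
  have h4 : l x - s = (l x - s * u * l 1) - s * j := by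
    have h5 : s * (u * l 1 + j) = s := by rw [huj, mul_one]
    linear_combination h5
  rw [h4]
  exact J.sub_mem h3 (J.mul_mem_left _ hj)

theorem p_dim_le_right (J : Ideal S) {k : ℕ} (f : (Fin k → S) →ₗ[S] B)
    (hf : Function.Surjective f) [Finite (S ⧸ J)] : Finite (B ⧸ J.map (algebraMap S B)) ∧
    Nat.card (B ⧸ J.map (algebraMap S B)) ≤ Nat.card (S ⧸ J) ^ k := by
  let φ : (Fin k → S ⧸ J) → B ⧸ J.map (algebraMap S B) := fun c =>
    Ideal.Quotient.mk _ (f fun i => Quotient.out (c i))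
  have hφ : Function.Surjective φ := by
    intro y
    obtain ⟨b, rfl⟩ := Ideal.Quotient.mk_surjective y
    obtain ⟨v, rfl⟩ := hf b
    refine ⟨fun i => Ideal.Quotient.mk J (v i), ?_⟩
    show Ideal.Quotient.mk _ _ = Ideal.Quotient.mk _ _
    rw [Ideal.Quotient.eq, ← map_sub]
    have h1 : ∀ w : Fin k → S, (∀ i, w i ∈ J) → f w ∈ J.map (algebraMap S B) := by
      intro w hw
      have h2 : w = ∑ i, w i • (Pi.single i (1 : S) : Fin k → S) := by
        rw [← Finset.univ_sum_single w]
        refine Finset.sum_congr rfl fun i _ => ?_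
        rw [Finset.univ_sum_single w, ← Pi.single_smul, smul_eq_mul, mul_one]
      rw [h2, map_sum]
      refine Ideal.sum_mem _ fun i _ => ?_
      rw [map_smul, Algebra.smul_def]
      exact Ideal.mul_mem_right _ _ (Ideal.mem_map_of_mem _ (hw i))
    apply h1
    intro i
    show Quotient.out (Ideal.Quotient.mk J (v i)) - v i ∈ J
    rw [← Ideal.Quotient.eq]
    exact Quotient.out_eq _
  refine ⟨Finite.of_surjective φ hφ, ?_⟩
  have h2 := Nat.card_le_card_of_surjective φ hφ
  rw [Nat.card_fun, Nat.card_eq_fintype_card (α := Fin k), Fintype.card_fin] at h2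
  exact h2

end

/-- the arithmetic at the end -/
theorem p_dim_arith (p k a b : ℕ) (hp : 2 ≤ p) (h : ∀ n, p ^ (a * n) ≤ k * p ^ (b * n)) :
    a ≤ b := by
  by_contra hab
  push Not at hab
  have h1 := h k
  have h2 : a * k = b * k + (a - b) * k := by
    rw [← Nat.add_mul, Nat.add_sub_cancel' hab.le]
  rw [h2, pow_add, mul_comm k] at h1
  have h3 := Nat.le_of_mul_le_mul_left h1 (by positivity)
  have h4 : k < p ^ k := Nat.lt_pow_self (by omega)
  have h5 : p ^ k ≤ p ^ ((a - b) * k) := by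
    apply Nat.pow_le_pow_right (by omega)
    have : 1 ≤ a - b := by omega
    nlinarith
  omega

theorem p_dim (h_compcard : S_compcard) (h_count : S_count) (h_dual : S_dual) : S_dim := by
  intro p m hpp B _ _ ev h d g hinj hfin
  have hp := hpp.out
  let : Algebra (Pol p d) B := g.toRingHom.toAlgebra
  have hfin' : Module.Finite (Pol p d) B := hfin
  have halg : algebraMap (Pol p d) B = g.toRingHom := rfl
  obtain ⟨l, hl⟩ := h_dual (Pol p d) B hinj
  obtain ⟨k, f, hf⟩ := Module.Finite.exists_fin' (Pol p d) B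
  -- a maximal ideal not containing `l 1`
  have hjac : (⊥ : Ideal (Pol p d)).jacobson = ⊥ := by
    rw [← Ideal.radical_eq_jacobson]
    exact Ideal.IsPrime.radical Ideal.isPrime_bot
  obtain ⟨N, hN, hlN⟩ : ∃ N : Ideal (Pol p d), N.IsMaximal ∧ l 1 ∉ N := by
    by_contra hcon
    push Not at hcon
    apply hl
    have : l 1 ∈ (⊥ : Ideal (Pol p d)).jacobson := by
      unfold Ideal.jacobson
      rw [Ideal.mem_sInf]
      intro J hJ
      exact hcon J hJ.2
    rwa [hjac, Ideal.mem_bot] at this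
  let : Field (Pol p d ⧸ N) := Ideal.Quotient.field N
  have hNfin' : Module.Finite (ZMod p) (Pol p d ⧸ N) :=
    finite_of_finite_type_of_isJacobsonRing (ZMod p) (Pol p d ⧸ N)
  have hNfin : Finite (Pol p d ⧸ N) := Module.finite_of_finite (ZMod p)
  have hc : 2 ≤ Nat.card (Pol p d ⧸ N) := Finite.one_lt_card
  set c := Nat.card (Pol p d ⧸ N) with hcdef
  set I : Ideal B := N.map (algebraMap (Pol p d) B) with hI
  obtain ⟨hIfin, hIk⟩ := p_dim_le_right N f hf
  set e := Nat.card (B ⧸ I) with hedef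
  have hsup : ∀ n, fpow (p ^ n) N ⊔ Ideal.span {l 1} = ⊤ := by
    intro n
    by_contra hcon
    obtain ⟨M, hM, hle⟩ := Ideal.exists_le_maximal _ hcon
    have h1 : N ≤ M := by
      intro a ha
      exact hM.isPrime.mem_of_pow_mem _ (hle (Ideal.mem_sup_left (p_count_fpow_mem ha)))
    have h2 : N = M := hN.eq_of_le hM.ne_top h1
    apply hlN
    rw [h2]
    exact hle (Ideal.mem_sup_right (Ideal.mem_span_singleton_self _))
  have key : ∀ n, c ^ (p ^ (d * n)) ≤ e ^ (p ^ (m * n)) ∧
      e ^ (p ^ (m * n)) ≤ (c ^ (p ^ (d * n))) ^ k := by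
    intro n
    obtain ⟨h1, h2⟩ := p_dim_iter h_compcard p d N hNfin n
    obtain ⟨h3, h4⟩ := p_dim_le_right (fpow (p ^ n) N) f hf
    obtain ⟨h5, h6⟩ := h_count p m B ev h I hIfin n
    have h7 := p_dim_le_left l (fpow (p ^ n) N) (hsup n)
    rw [hI, p_dim_map] at h6
    rw [h6, h2] at h7
    rw [h6, h2] at h4
    exact ⟨h7, h4⟩
  have hce : c ≤ e := by
    have := (key 0).1
    simpa using this
  have hek : e ≤ c ^ k := hIk
  apply le_antisymm
  · apply p_dim_arith p k d m hp.two_le
    intro n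
    have h1 : c ^ (p ^ (d * n)) ≤ c ^ (k * p ^ (m * n)) := by
      refine (key n).1.trans ?_
      rw [pow_mul c]
      exact Nat.pow_le_pow_left hek _
    exact (Nat.pow_le_pow_iff_right (by omega)).1 h1
  · apply p_dim_arith p k m d hp.two_le
    intro n
    have h1 : c ^ (p ^ (m * n)) ≤ c ^ (k * p ^ (d * n)) := by
      refine (Nat.pow_le_pow_left hce _).trans ((key n).2.trans ?_)
      rw [← pow_mul, mul_comm]
    exact (Nat.pow_le_pow_iff_right (by omega)).1 h1

end Pool.Agent.F2TF
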