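import Pool.Agent.Lib.MP_305fdd_al.F2.TF.Stm

/-!
# MP_305fdd_al (`F_2`), section A, piece a6: Noether normalisation
-/

set_option autoImplicit false

namespace Pool.Agent.F2TF

open MvPolynomial

section

variable {A B : Type} [CommRing A] [CommRing B] [Algebra A B] {d : ℕ}

/-- the `A`-span of the monomials in `s` of degree `≤ D` -/
private def p_noether_W (A : Type) {B : Type} [CommRing A] [CommRing B] [Algebra A B] {d : ℕ}
    (s : Fin d → B) (D : ℕ) : Submodule A B :=
  Submodule.span A ((fun e : Fin d →₀ ℕ => e.prod fun i n => s i ^ n) '' {e | e.degree ≤ D})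

variable {s : Fin d → B}

private theorem p_noether_mon (e : Fin d →₀ ℕ) {D : ℕ} (h : e.degree ≤ D) :
    (e.prod fun i n => s i ^ n) ∈ p_noether_W A s D :=
  Submodule.subset_span ⟨e, h, rfl⟩

private theorem p_noether_mono {D E : ℕ} (h : D ≤ E) : p_noether_W A s D ≤ p_noether_W A s E :=
  Submodule.span_mono (Set.image_mono fun _ he => le_trans he h)

private theorem p_noether_mul {D E : ℕ} {a b : B} (ha : a ∈ p_noether_W A s D)
    (hb : b ∈ p_noether_W A s E) : a * b ∈ p_noether_W A s (D + E) := by
  have h : p_noether_W A s D * p_noether_W A s E ≤ p_noether_W A s (D + E) := by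
    unfold p_noether_W
    rw [Submodule.span_mul_span]
    refine Submodule.span_mono ?_
    rintro _ ⟨_, ⟨e, he, rfl⟩, _, ⟨f, hf, rfl⟩, rfl⟩
    refine ⟨e + f, ?_, ?_⟩
    · simp only [Set.mem_setOf_eq] at he hf ⊢
      rw [map_add]
      exact add_le_add he hf
    · simp only
      rw [Finsupp.prod_add_index' (fun _ => pow_zero _) (fun _ _ _ => pow_add _ _ _)]
  exact h (Submodule.mul_mem_mul ha hb)

private theorem p_noether_one {D : ℕ} : (1 : B) ∈ p_noether_W A s D := by
  have := p_noether_mon (A := A) (s := s) (0 : Fin d →₀ ℕ) (D := D) (by simp)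
  simpa using this

private theorem p_noether_alg (a : A) {D : ℕ} : algebraMap A B a ∈ p_noether_W A s D := by
  rw [Algebra.algebraMap_eq_smul_one]
  exact Submodule.smul_mem _ _ p_noether_one

private theorem p_noether_pow {D : ℕ} {a : B} (ha : a ∈ p_noether_W A s D) (n : ℕ) :
    a ^ n ∈ p_noether_W A s (D * n) := by
  induction n with
  | zero => simpa using p_noether_one
  | succ n ih =>
    rw [pow_succ, mul_add, mul_one]
    exact p_noether_mul ih ha

private theorem p_noether_var (i : Fin d) : s i ∈ p_noether_W A s 1 := by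
  have := p_noether_mon (A := A) (s := s) (Finsupp.single i 1) (D := 1) (by simp)
  simpa using this

private theorem p_noether_sub {D n : ℕ} {t y : B} (ht : t ∈ p_noether_W A s 0)
    (hy : y ∈ p_noether_W A s D) :
    (t + y) ^ (n + 1) - y ^ (n + 1) ∈ p_noether_W A s (D * n) := by
  induction n with
  | zero => simpa using ht
  | succ n ih =>
    have h : (t + y) ^ (n + 1 + 1) - y ^ (n + 1 + 1) =
        (t + y) * ((t + y) ^ (n + 1) - y ^ (n + 1)) + t * y ^ (n + 1) := by ring
    rw [h]
    refine Submodule.add_mem _ ?_ ?_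
    · have h2 : t + y ∈ p_noether_W A s D :=
        Submodule.add_mem _ (p_noether_mono (Nat.zero_le _) ht) hy
      exact p_noether_mono (by rw [mul_add, mul_one, add_comm]) (p_noether_mul h2 ih)
    · exact p_noether_mono (by simp) (p_noether_mul ht (p_noether_pow hy (n + 1)))

/-- reduction of all monomials -/
private theorem p_noether_red {g : Fin d → ℕ} (hg : ∀ i, 0 < g i)
    (h : ∀ i, s i ^ g i ∈ p_noether_W A s (g i - 1)) (D : ℕ) :
    p_noether_W A s D ≤ p_noether_W A s (∑ i, g i) := by
  induction D with
  | zero => exact p_noether_mono (Nat.zero_le _)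
  | succ D ih =>
    by_cases hD : D + 1 ≤ ∑ i, g i
    · exact p_noether_mono hD
    push Not at hD
    refine Submodule.span_le.mpr ?_
    rintro _ ⟨e, he, rfl⟩
    simp only [Set.mem_setOf_eq] at he
    by_cases he2 : e.degree ≤ D
    · exact ih (p_noether_mon e he2)
    have he3 : e.degree = D + 1 := by omega
    obtain ⟨i, hi⟩ : ∃ i, g i ≤ e i := by
      by_contra hcon
      push Not at hcon
      have : e.degree ≤ ∑ i, g i := by
        rw [Finsupp.degree_eq_sum]
        exact Finset.sum_le_sum fun i _ => (hcon i).le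
      omega
    refine ih ?_
    have hle : Finsupp.single i (g i) ≤ e := by
      rw [Finsupp.single_le_iff]
      exact hi
    have hsplit : Finsupp.single i (g i) + (e - Finsupp.single i (g i)) = e :=
      add_tsub_cancel_of_le hle
    have hdeg : g i + (e - Finsupp.single i (g i)).degree = D + 1 := by
      rw [← he3, ← hsplit, map_add]
      simp
    have hprod : (e.prod fun i n => s i ^ n) =
        s i ^ g i * ((e - Finsupp.single i (g i)).prod fun i n => s i ^ n) := by
      conv_lhs => rw [← hsplit]
      rw [Finsupp.prod_add_index' (fun _ => pow_zero _) (fun _ _ _ => pow_add _ _ _)]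
      simp
    simp only [SetLike.mem_coe]
    rw [hprod]
    have := hg i
    exact p_noether_mono (by omega) (p_noether_mul (h i) (p_noether_mon _ le_rfl))

private theorem p_noether_fg (D : ℕ) : (p_noether_W A s D).FG := by
  unfold p_noether_W
  exact Submodule.fg_span ((Finsupp.finite_of_degree_le D).image _)

end

theorem p_noether : S_noether := by
  intro k B _ _ _ d s x hfin
  -- the equations of integral dependence
  have hint : ∀ i, ∃ q : Polynomial (MvPolynomial (Fin d) k), q.Monic ∧ 0 < q.natDegree ∧
      Polynomial.eval₂ (aeval s : MvPolynomial (Fin d) k →ₐ[k] B).toRingHom (x i) q = 0 := by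
    intro i
    obtain ⟨q, hq, hq0⟩ := hfin.to_isIntegral (x i)
    refine ⟨q * Polynomial.X, hq.mul Polynomial.monic_X, ?_, ?_⟩
    · rw [hq.natDegree_mul Polynomial.monic_X]
      simp
    · rw [Polynomial.eval₂_mul, hq0, zero_mul]
  choose q hqm hqd hq0 using hint
  -- the bound for the degrees
  obtain ⟨δ, hδ⟩ : ∃ δ : ℕ, ∀ i j, ((q i).coeff j).totalDegree ≤ δ := by
    refine ⟨Finset.univ.sup fun i => (q i).support.sup fun j => ((q i).coeff j).totalDegree, ?_⟩
    intro i j
    by_cases hj : j ∈ (q i).support
    · exact le_trans (Finset.le_sup (f := fun j => ((q i).coeff j).totalDegree) hj)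
        (Finset.le_sup (f := fun i => (q i).support.sup fun j => ((q i).coeff j).totalDegree)
          (Finset.mem_univ i))
    · rw [Polynomial.notMem_support_iff.mp hj]
      simp
  refine ⟨δ + 1, fun m hm => ?_⟩
  set φ : MvPolynomial (Fin d) k →ₐ[k] B := aeval (fun i => x i + s i ^ m) with hφ
  letI := φ.toRingHom.toAlgebra
  haveI : IsScalarTower k (MvPolynomial (Fin d) k) B :=
    IsScalarTower.of_algebraMap_eq fun r => (φ.commutes r).symm
  set A := MvPolynomial (Fin d) k with hA
  have halg : ∀ a : A, algebraMap A B a = φ a := fun _ => rfl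
  have haev : ∀ (D : ℕ) (f : A), f.totalDegree ≤ D →
      (aeval s : MvPolynomial (Fin d) k →ₐ[k] B) f ∈ p_noether_W A s D := by
    intro D f hf
    rw [aeval_def, eval₂_eq']
    refine Submodule.sum_mem _ fun e he => ?_
    have h1 : algebraMap k B (coeff e f) = algebraMap A B (C (coeff e f)) := by
      rw [IsScalarTower.algebraMap_apply k A B]
      rfl
    rw [h1, ← Algebra.smul_def]
    refine Submodule.smul_mem _ _ ?_
    have h2 : (∏ i, s i ^ e i) = e.prod fun i n => s i ^ n := by
      rw [Finsupp.prod_fintype _ _ (fun _ => pow_zero _)]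
    rw [h2]
    refine p_noether_mon e (le_trans ?_ hf)
    have := le_totalDegree he
    rwa [Finsupp.sum, ← Finsupp.degree_apply] at this
  -- the relations
  have hrel : ∀ i, s i ^ (m * (q i).natDegree) ∈ p_noether_W A s (m * (q i).natDegree - 1) := by
    intro i
    obtain ⟨n, hn⟩ : ∃ n, (q i).natDegree = n + 1 := ⟨(q i).natDegree - 1, by
      have := hqd i; omega⟩
    have hsm : s i ^ m ∈ p_noether_W A s m := by
      have := p_noether_pow (p_noether_var (A := A) (s := s) i) m
      rwa [one_mul] at this
    have ht : x i + s i ^ m ∈ p_noether_W A s 0 := by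
      have : x i + s i ^ m = algebraMap A B (X i) := by
        rw [halg, hφ, aeval_X]
      rw [this]
      exact p_noether_alg _
    have hy : -(s i ^ m) ∈ p_noether_W A s m := Submodule.neg_mem _ hsm
    have hx : x i = (x i + s i ^ m) + -(s i ^ m) := by ring
    have hxm : x i ∈ p_noether_W A s m := by
      rw [hx]
      exact Submodule.add_mem _ (p_noether_mono (Nat.zero_le _) ht) hy
    have h1 := p_noether_sub (n := n) ht hy
    rw [← hx] at h1
    have h2 : x i ^ (n + 1) ∈ p_noether_W A s (δ + m * n) := by
      have h3 := hq0 i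
      rw [Polynomial.eval₂_eq_sum_range, hn, Finset.sum_range_succ] at h3
      have h4 : (q i).coeff (n + 1) = 1 := by
        rw [← hn]
        exact hqm i
      rw [h4, map_one, one_mul] at h3
      have h5 : x i ^ (n + 1) = - ∑ j ∈ Finset.range (n + 1),
          (aeval s : MvPolynomial (Fin d) k →ₐ[k] B).toRingHom ((q i).coeff j) * x i ^ j := by
        rw [eq_neg_iff_add_eq_zero, add_comm]
        exact h3
      rw [h5]
      refine Submodule.neg_mem _ (Submodule.sum_mem _ fun j hj => ?_)
      have hj : j ≤ n := Nat.lt_succ_iff.mp (Finset.mem_range.mp hj)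
      refine p_noether_mono ?_ (p_noether_mul (haev δ _ (hδ i j)) (p_noether_pow hxm j))
      gcongr
    have h6 : (-(s i ^ m)) ^ (n + 1) ∈ p_noether_W A s (m * (n + 1) - 1) := by
      have h7 : (-(s i ^ m)) ^ (n + 1) = x i ^ (n + 1) - (x i ^ (n + 1) - (-(s i ^ m)) ^ (n + 1)) := by
        ring
      rw [h7]
      have h8 : δ + m * n ≤ m * (n + 1) - 1 := by
        have : m * (n + 1) = m * n + m := by ring
        omega
      exact Submodule.sub_mem _ (p_noether_mono h8 h2)
        (p_noether_mono (le_trans (Nat.le_add_left _ _) h8) h1)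
    rw [hn, pow_mul]
    rw [neg_pow] at h6
    rcases neg_one_pow_eq_or B (n + 1) with h9 | h9
    · rwa [h9, one_mul] at h6
    · rw [h9, neg_one_mul] at h6
      exact (Submodule.neg_mem_iff _).mp h6
  have hred := p_noether_red (A := A) (s := s) (g := fun i => m * (q i).natDegree)
    (fun i => Nat.mul_pos (by omega) (hqd i)) hrel
  -- conclusion
  change Module.Finite A B
  obtain ⟨S, hS⟩ : ∃ S : Finset B, ∀ b : B, ∃ c : B → A,
      b = ∑ y ∈ S, (aeval s : MvPolynomial (Fin d) k →ₐ[k] B) (c y) * y := by
    letI alg2 := (aeval s : MvPolynomial (Fin d) k →ₐ[k] B).toRingHom.toAlgebra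
    obtain ⟨S, hS⟩ := (hfin : @Module.Finite A B _ _ alg2.toModule).fg_top
    refine ⟨S, fun b => ?_⟩
    have hb : b ∈ @Submodule.span A B _ _ alg2.toModule (S : Set B) := by
      rw [hS]
      trivial
    rw [@Submodule.mem_span_finset] at hb
    obtain ⟨c, -, hc⟩ := hb
    exact ⟨c, hc.symm⟩
  refine ⟨?_⟩
  have htop : (⊤ : Submodule A B) =
      p_noether_W A s (∑ i, m * (q i).natDegree) * Submodule.span A (S : Set B) := by
    symm
    rw [eq_top_iff]
    intro b _
    obtain ⟨c, hc⟩ := hS b
    rw [hc]
    refine Submodule.sum_mem _ fun y hy => Submodule.mul_mem_mul ?_ (Submodule.subset_span hy)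
    exact hred _ (haev _ (c y) le_rfl)
  rw [htop]
  exact (p_noether_fg _).mul (Submodule.fg_span S.finite_toSet)

end Pool.Agent.F2TF
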