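import Pool.Agent.Lib.MP_305fdd_al.F2.TF.Stm

/-!
# MP_305fdd_al (`F_2`), section A, piece a7: lifts of a basis are linearly independent
-/

set_option autoImplicit false

namespace Pool.Agent.F2TF

open MvPolynomial

section

variable {R : Type} [CommRing R]

private theorem p_indep_fpow_one (I : Ideal R) : fpow 1 I = I := by
  unfold fpow
  simp

private theorem p_indep_mem {p : ℕ} [hp : Fact p.Prime] [Algebra (ZMod p) R] {I J : Ideal R} {n : ℕ}
    (S : Set R) (hI : I = Ideal.span S) (h : ∀ x ∈ S, x ^ p ^ n ∈ J) (x : R) (hx : x ∈ I) :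
    x ^ p ^ n ∈ J := by
  rcases subsingleton_or_nontrivial R with hR | hR
  · rw [Subsingleton.elim (x ^ p ^ n) 0]
    exact J.zero_mem
  haveI : CharP R p := charP_of_injective_algebraMap (algebraMap (ZMod p) R).injective p
  subst hI
  induction hx using Submodule.span_induction with
  | mem x hx => exact h x hx
  | zero =>
    rw [zero_pow (pow_ne_zero _ hp.out.ne_zero)]
    exact J.zero_mem
  | add x y _ _ hx hy =>
    rw [add_pow_char_pow]
    exact J.add_mem hx hy
  | smul a x _ hx =>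
    rw [smul_eq_mul, mul_pow]
    exact J.mul_mem_left _ hx

private theorem p_indep_fpow_succ (p : ℕ) [hp : Fact p.Prime] [Algebra (ZMod p) R] (I : Ideal R)
    (n : ℕ) : fpow p (fpow (p ^ n) I) = fpow (p ^ (n + 1)) I := by
  apply le_antisymm
  · refine Ideal.span_le.mpr ?_
    rintro _ ⟨x, hx, rfl⟩
    have := p_indep_mem (p := p) (n := 1) (J := fpow (p ^ (n + 1)) I) _ rfl
      (I := fpow (p ^ n) I) ?_ x hx
    · simpa using this
    · rintro _ ⟨a, ha, rfl⟩
      simp only
      rw [← pow_mul, ← pow_add]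
      exact Ideal.subset_span ⟨a, ha, rfl⟩
  · refine Ideal.span_le.mpr ?_
    rintro _ ⟨x, hx, rfl⟩
    simp only [SetLike.mem_coe]
    rw [pow_succ, pow_mul]
    exact Ideal.subset_span ⟨x ^ p ^ n, Ideal.subset_span ⟨x, hx, rfl⟩, rfl⟩

private theorem p_indep_fpow_map (p : ℕ) [hp : Fact p.Prime] {B : Type} [CommRing B]
    [Algebra (ZMod p) B] (f : R →+* B) (I : Ideal R) (n : ℕ) :
    (fpow (p ^ n) I).map f = fpow (p ^ n) (I.map f) := by
  apply le_antisymm
  · rw [Ideal.map_le_iff_le_comap]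
    refine Ideal.span_le.mpr ?_
    rintro _ ⟨x, hx, rfl⟩
    simp only [Ideal.coe_comap, Set.mem_preimage, SetLike.mem_coe, map_pow]
    exact Ideal.subset_span ⟨f x, Ideal.mem_map_of_mem f hx, rfl⟩
  · refine Ideal.span_le.mpr ?_
    rintro _ ⟨x, hx, rfl⟩
    refine p_indep_mem (p := p) (I := I.map f) (f '' I) rfl ?_ x hx
    rintro _ ⟨a, ha, rfl⟩
    rw [← map_pow]
    exact Ideal.mem_map_of_mem f (Ideal.subset_span ⟨a, ha, rfl⟩)

end

section

variable {P B : Type} [CommRing P] [CommRing B] [Algebra P B] {δ : ℕ}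

/-- `c ↦ ∑ i, c i • b i` -/
private noncomputable def p_indep_L (I : Ideal P) (b : Fin δ → B) :
    (Fin δ → P ⧸ I) →ₗ[P] B ⧸ I.map (algebraMap P B) :=
  ∑ i, (Submodule.liftQ I (LinearMap.toSpanSingleton P (B ⧸ I.map (algebraMap P B))
    (Ideal.Quotient.mk _ (b i))) (by
      intro a ha
      rw [LinearMap.mem_ker, LinearMap.toSpanSingleton_apply]
      rw [← Ideal.Quotient.mkₐ_eq_mk P, ← map_smul, Algebra.smul_def, Ideal.Quotient.mkₐ_eq_mk,
        Ideal.Quotient.eq_zero_iff_mem]
      exact Ideal.mul_mem_right _ _ (Ideal.mem_map_of_mem _ ha))).comp (LinearMap.proj i)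

private theorem p_indep_L_apply (I : Ideal P) (b : Fin δ → B) (c : Fin δ → P) :
    p_indep_L I b (fun i => Ideal.Quotient.mk I (c i)) = Ideal.Quotient.mk _ (∑ i, c i • b i) := by
  unfold p_indep_L
  rw [LinearMap.sum_apply, map_sum]
  refine Finset.sum_congr rfl fun i _ => ?_
  rw [LinearMap.comp_apply, LinearMap.proj_apply]
  change LinearMap.toSpanSingleton P (B ⧸ I.map (algebraMap P B))
    (Ideal.Quotient.mk _ (b i)) (c i) = _
  rw [LinearMap.toSpanSingleton_apply]
  rw [← Ideal.Quotient.mkₐ_eq_mk P, ← map_smul]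

private theorem p_indep_L_surj (I : Ideal P) (b : Fin δ → B)
    (h : ∀ x : B, ∃ c : Fin δ → P, x - ∑ i, c i • b i ∈ I.map (algebraMap P B)) :
    Function.Surjective (p_indep_L I b) := by
  intro y
  obtain ⟨x, rfl⟩ := Ideal.Quotient.mk_surjective y
  obtain ⟨c, hc⟩ := h x
  refine ⟨fun i => Ideal.Quotient.mk I (c i), ?_⟩
  rw [p_indep_L_apply]
  exact (Ideal.Quotient.eq.mpr hc).symm

private theorem p_indep_iff (I : Ideal P) (b : Fin δ → B) :
    (∀ x : B, ∃ c : Fin δ → P, x - ∑ i, c i • b i ∈ I.map (algebraMap P B)) ↔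
      Submodule.span P (Set.range b) ⊔ I • (⊤ : Submodule P B) = ⊤ := by
  rw [Ideal.smul_top_eq_map]
  constructor
  · intro h
    rw [eq_top_iff]
    intro x _
    obtain ⟨c, hc⟩ := h x
    rw [Submodule.mem_sup]
    refine ⟨∑ i, c i • b i, ?_, x - ∑ i, c i • b i, hc, by ring⟩
    exact Submodule.sum_mem _ fun i _ => Submodule.smul_mem _ _ (Submodule.subset_span ⟨i, rfl⟩)
  · intro h x
    have hx : x ∈ Submodule.span P (Set.range b) ⊔
      (I.map (algebraMap P B)).restrictScalars P := by rw [h]; trivial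
    rw [Submodule.mem_sup] at hx
    obtain ⟨y, hy, z, hz, rfl⟩ := hx
    obtain ⟨c, rfl⟩ := (Submodule.mem_span_range_iff_exists_fun P).mp hy
    exact ⟨c, by simpa using hz⟩

private theorem p_indep_pow (I : Ideal P) (b : Fin δ → B)
    (h : Submodule.span P (Set.range b) ⊔ I • (⊤ : Submodule P B) = ⊤) (j : ℕ) :
    Submodule.span P (Set.range b) ⊔ I ^ j • (⊤ : Submodule P B) = ⊤ := by
  induction j with
  | zero =>
    rw [pow_zero, Submodule.one_smul, sup_top_eq]
  | succ j ih =>
    rw [eq_top_iff]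
    calc (⊤ : Submodule P B) = Submodule.span P (Set.range b) ⊔ I ^ j • (⊤ : Submodule P B) :=
          ih.symm
      _ = Submodule.span P (Set.range b) ⊔
          I ^ j • (Submodule.span P (Set.range b) ⊔ I • (⊤ : Submodule P B)) := by rw [h]
      _ ≤ _ := by
        rw [Submodule.smul_sup, ← mul_smul, ← pow_succ]
        exact sup_le le_sup_left (sup_le (Submodule.smul_le_right.trans le_sup_left) le_sup_right)

end

theorem p_indep (h_compcard : S_compcard) (h_count : S_count) : S_indep := by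
  intro p m hp B _ _ ev hTR _ _ N hN δ b hgen hind
  have hfinN : Finite (Pol p m ⧸ N) := by
    letI : Field (Pol p m ⧸ N) := Ideal.Quotient.field N
    haveI : Module.Finite (ZMod p) (Pol p m ⧸ N) :=
      finite_of_finite_type_of_isJacobsonRing (ZMod p) (Pol p m ⧸ N)
    exact Module.finite_of_finite (ZMod p)
  have hcardP : ∀ n : ℕ, Finite (Pol p m ⧸ fpow (p ^ n) N) ∧
      Nat.card (Pol p m ⧸ fpow (p ^ n) N) = Nat.card (Pol p m ⧸ N) ^ (p ^ (m * n)) := by
    intro n
    induction n with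
    | zero =>
      rw [pow_zero, p_indep_fpow_one]
      exact ⟨hfinN, by simp⟩
    | succ n ih =>
      have := h_compcard p m (fpow (p ^ n) N) ih.1
      rw [p_indep_fpow_succ, ih.2, ← pow_mul, ← pow_add] at this
      rw [mul_add, mul_one]
      exact this
  have hinjN : Function.Injective (p_indep_L N b) := by
    rw [injective_iff_map_eq_zero]
    intro c hc
    choose c' hc' using fun i => Ideal.Quotient.mk_surjective (c i)
    have h1 : c = fun i => Ideal.Quotient.mk N (c' i) := funext fun i => (hc' i).symm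
    rw [h1, p_indep_L_apply, Ideal.Quotient.eq_zero_iff_mem] at hc
    rw [h1]
    funext i
    exact Ideal.Quotient.eq_zero_iff_mem.mpr (hind c' hc i)
  have hbijN : Function.Bijective (p_indep_L N b) := ⟨hinjN, p_indep_L_surj N b hgen⟩
  have hfinB : Finite (B ⧸ N.map (algebraMap (Pol p m) B)) :=
    Finite.of_surjective _ hbijN.2
  have hcardB : Nat.card (B ⧸ N.map (algebraMap (Pol p m) B)) = Nat.card (Pol p m ⧸ N) ^ δ := by
    rw [← Nat.card_congr (Equiv.ofBijective _ hbijN), Nat.card_fun, Nat.card_fin]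
  rw [Fintype.linearIndependent_iff]
  intro c hc i
  have key : ∀ n : ℕ, c i ∈ fpow (p ^ n) N := by
    intro n
    obtain ⟨hf, hcard⟩ := h_count p m B ev hTR (N.map (algebraMap (Pol p m) B)) hfinB n
    rw [← p_indep_fpow_map p (algebraMap (Pol p m) B) N n] at hf hcard
    obtain ⟨hf2, hcard2⟩ := hcardP n
    have hsurj : Function.Surjective (p_indep_L (fpow (p ^ n) N) b) := by
      apply p_indep_L_surj
      rw [p_indep_iff] at hgen ⊢
      obtain ⟨j, hj⟩ : ∃ j, N ^ j ≤ fpow (p ^ n) N := by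
        refine Ideal.exists_pow_le_of_le_radical_of_fg ?_ (IsNoetherian.noetherian N)
        intro a ha
        exact ⟨p ^ n, Ideal.subset_span ⟨a, ha, rfl⟩⟩
      exact top_le_iff.mp ((p_indep_pow N b hgen j).ge.trans
        (sup_le_sup_left (Submodule.smul_mono_left hj) _))
    have hcardeq : Nat.card (Fin δ → Pol p m ⧸ fpow (p ^ n) N) ≤
        Nat.card (B ⧸ (fpow (p ^ n) N).map (algebraMap (Pol p m) B)) := by
      rw [Nat.card_fun, hcard, hcardB, hcard2, Nat.card_fin, ← pow_mul, ← pow_mul, mul_comm]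
    have hbij := hsurj.bijective_of_nat_card_le hcardeq
    have h0 : p_indep_L (fpow (p ^ n) N) b (fun i => Ideal.Quotient.mk _ (c i)) = 0 := by
      rw [p_indep_L_apply, hc, map_zero]
    have h1 := hbij.1 (h0.trans (map_zero _).symm)
    have h2 := congrFun h1 i
    exact Ideal.Quotient.eq_zero_iff_mem.mp h2
  have hbot : c i ∈ (⨅ k : ℕ, N ^ k : Ideal (Pol p m)) := by
    rw [Submodule.mem_iInf]
    intro k
    have h1 : fpow (p ^ k) N ≤ N ^ k := by
      refine Ideal.span_le.mpr ?_
      rintro _ ⟨a, ha, rfl⟩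
      exact Ideal.pow_le_pow_right (Nat.lt_pow_self hp.out.one_lt).le (Ideal.pow_mem_pow ha _)
    exact h1 (key k)
  rw [Ideal.iInf_pow_eq_bot_of_isDomain N hN.ne_top] at hbot
  simpa using hbot

end Pool.Agent.F2TF
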