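import Pool.Agent.Lib.MP_305fdd_al.F2.TF.Stm

set_option autoImplicit false

namespace Pool.Agent.F2TF

open MvPolynomial Matrix
open Pool.Agent.CC (IsTR)

private theorem p_proj_basis (P B : Type) [CommRing P] [CommRing B] [Algebra P B]
    [Module.Finite P B] (N : Ideal P) [hN : N.IsMaximal] :
    ∃ (δ : ℕ) (b : Fin δ → B),
      (∀ x : B, ∃ c : Fin δ → P, x - ∑ i, c i • b i ∈ N.map (algebraMap P B)) ∧
      (∀ c : Fin δ → P, ∑ i, c i • b i ∈ N.map (algebraMap P B) → ∀ i, c i ∈ N) := by
  let _ : Field (P ⧸ N) := Ideal.Quotient.field N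
  have hmem : ∀ x : B, x ∈ N.map (algebraMap P B) ↔
      (Submodule.Quotient.mk x : B ⧸ (N • (⊤ : Submodule P B))) = 0 := by
    intro x
    rw [Submodule.Quotient.mk_eq_zero, Ideal.smul_top_eq_map]
    rfl
  have : Module.Finite (P ⧸ N) (B ⧸ (N • (⊤ : Submodule P B))) :=
    Module.Finite.of_restrictScalars_finite P _ _
  let bs := Module.finBasis (P ⧸ N) (B ⧸ (N • (⊤ : Submodule P B)))
  choose b hb using fun i => Submodule.Quotient.mk_surjective (N • (⊤ : Submodule P B)) (bs i)
  have hsmul : ∀ (c : P) (x : B), (Submodule.Quotient.mk (c • x) : B ⧸ (N • (⊤ : Submodule P B))) =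
      (Ideal.Quotient.mk N c) • (Submodule.Quotient.mk x : B ⧸ (N • (⊤ : Submodule P B))) := by
    intro c x
    rfl
  have hsum : ∀ c : Fin (Module.finrank (P ⧸ N) (B ⧸ (N • (⊤ : Submodule P B)))) → P,
      (Submodule.Quotient.mk (∑ i, c i • b i) : B ⧸ (N • (⊤ : Submodule P B))) =
        ∑ i, (Ideal.Quotient.mk N (c i)) • bs i := by
    intro c
    change Submodule.mkQ _ (∑ i, c i • b i) = _
    rw [map_sum]
    refine Finset.sum_congr rfl fun i _ => ?_
    rw [Submodule.mkQ_apply, hsmul, hb]
  refine ⟨_, b, ?_, ?_⟩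
  · intro x
    choose c hc using fun i => Ideal.Quotient.mk_surjective (bs.repr (Submodule.Quotient.mk x) i)
    refine ⟨c, ?_⟩
    rw [hmem, Submodule.Quotient.mk_sub, hsum]
    simp only [hc]
    rw [bs.sum_repr, sub_self]
  · intro c hc i
    rw [hmem, hsum] at hc
    have := Fintype.linearIndependent_iff.1 bs.linearIndependent _ hc i
    exact Ideal.Quotient.eq_zero_iff_mem.1 this

theorem p_proj (h_indep : S_indep) : S_proj := by
  intro p m _ B _ _ ev hev _ _
  have : Module.FinitePresentation (Pol p m) B := Module.finitePresentation_of_finite _ _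
  apply Module.projective_of_localization_maximal
  intro N hN
  obtain ⟨δ, b, hb1, hb2⟩ := p_proj_basis (Pol p m) B N
  have hli := h_indep p m B ev hev N δ b hb1 hb2
  -- Nakayama
  obtain ⟨s, hsN, hs⟩ : ∃ s : Pol p m, s ∉ N ∧ ∀ x : B, s • x ∈ Submodule.span (Pol p m) (Set.range b) := by
    set Q := Submodule.span (Pol p m) (Set.range b) with hQ
    have hle : (⊤ : Submodule (Pol p m) (B ⧸ Q)) ≤ N • ⊤ := by
      rintro y -
      obtain ⟨x, rfl⟩ := Submodule.Quotient.mk_surjective Q y
      obtain ⟨c, hc⟩ := hb1 x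
      have h1 : (x - ∑ i, c i • b i) ∈ (N • (⊤ : Submodule (Pol p m) B)) := by
        rw [Ideal.smul_top_eq_map]
        exact hc
      have h2 := Submodule.mem_map_of_mem (f := Submodule.mkQ Q) h1
      rw [Submodule.map_smul''] at h2
      have h3 : Submodule.mkQ Q (x - ∑ i, c i • b i) = Submodule.Quotient.mk x := by
        rw [map_sub, Submodule.mkQ_apply, Submodule.mkQ_apply, sub_eq_self,
          Submodule.Quotient.mk_eq_zero]
        exact Submodule.sum_mem _ fun i _ => Submodule.smul_mem _ _ (Submodule.subset_span ⟨i, rfl⟩)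
      rw [h3] at h2
      exact Submodule.smul_mono le_rfl le_top h2
    obtain ⟨s, hs1, hs2⟩ := Submodule.exists_sub_one_mem_and_smul_eq_zero_of_fg_of_le_smul N
      (⊤ : Submodule (Pol p m) (B ⧸ Q)) Module.Finite.fg_top hle
    refine ⟨s, ?_, ?_⟩
    · intro hs
      apply hN.ne_top
      rw [Ideal.eq_top_iff_one]
      have := N.sub_mem hs hs1
      rwa [sub_sub_cancel] at this
    · intro x
      have := hs2 (Submodule.Quotient.mk x) trivial
      rwa [← Submodule.Quotient.mk_smul, Submodule.Quotient.mk_eq_zero] at this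
  let f := LocalizedModule.mkLinearMap N.primeCompl B
  have hli' : LinearIndependent (Localization.AtPrime N) (f ∘ b) :=
    hli.of_isLocalizedModule (Localization.AtPrime N) N.primeCompl f
  have hsp : ⊤ ≤ Submodule.span (Localization.AtPrime N) (Set.range (f ∘ b)) := by
    rintro y -
    obtain ⟨⟨x, t⟩, ht⟩ := IsLocalizedModule.surj N.primeCompl f y
    have h1 : ∀ z ∈ Submodule.span (Pol p m) (Set.range b),
        f z ∈ Submodule.span (Localization.AtPrime N) (Set.range (f ∘ b)) := by
      intro z hz
      have h2 : f z ∈ Submodule.span (Pol p m) (Set.range (f ∘ b)) := by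
        rw [Set.range_comp, ← LinearMap.map_span]
        exact Submodule.mem_map_of_mem hz
      exact Submodule.span_subset_span (Pol p m) (Localization.AtPrime N) _ h2
    have h3 := h1 _ (hs x)
    rw [map_smul] at h3
    have h4 : (s * (t : Pol p m)) • y ∈ Submodule.span (Localization.AtPrime N) (Set.range (f ∘ b)) := by
      rw [mul_smul]
      have : (t : Pol p m) • y = f x := ht
      rw [this]
      exact h3
    have hu : IsUnit (algebraMap (Pol p m) (Localization.AtPrime N) (s * (t : Pol p m))) :=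
      IsLocalization.map_units (Localization.AtPrime N)
        (⟨s * (t : Pol p m), N.primeCompl.mul_mem hsN t.2⟩ : N.primeCompl)
    rw [← algebraMap_smul (Localization.AtPrime N)] at h4
    exact (Submodule.smul_mem_iff_of_isUnit _ hu).1 h4
  exact Module.Projective.of_basis (Module.Basis.mk hli' hsp)

end Pool.Agent.F2TF
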