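import Pool.Agent.Lib.MP_305fdd_al.F2.TF.Stm

set_option autoImplicit false

namespace Pool.Agent.F2TF

open MvPolynomial Matrix

theorem degreeOf_expand_le {d p : ℕ} {R : Type} [CommRing R] (i : Fin d)
    (f : MvPolynomial (Fin d) R) : degreeOf i (expand p f) ≤ p * degreeOf i f := by
  classical
  rw [degreeOf_le_iff]
  intro m hm
  obtain ⟨a, ha, rfl⟩ := Finset.mem_image.mp (support_expand_subset f hm)
  simp only [Finsupp.smul_apply, smul_eq_mul]
  exact Nat.mul_le_mul_left _ (monomial_le_degreeOf i ha)

/-- [TF b2] -/
theorem p_opdeg : S_opdeg := by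
  intro p d r D R _ H hp hH n
  induction n with
  | zero =>
    intro i j k
    simp only [hpow, Matrix.one_apply]
    split_ifs <;> simp
  | succ n ih =>
    intro i j k
    simp only [hpow, Matrix.mul_apply, Matrix.map_apply]
    refine (degreeOf_sum_le _ _ _).trans (Finset.sup_le fun l _ => ?_)
    refine (degreeOf_mul_le _ _ _).trans ?_
    have h1 := hH i j l
    have h2 := (degreeOf_expand_le (p := p) i (hpow p H n l k)).trans
      (Nat.mul_le_mul_left p (ih i l k))
    have h3 : (p ^ (n + 1) - 1) * D = (p - 1) * D + p * ((p ^ n - 1) * D) := by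
      have h4 : 1 ≤ p ^ n := Nat.one_le_pow _ _ hp
      obtain ⟨a, ha⟩ := Nat.exists_eq_add_of_le h4
      obtain ⟨b, hb⟩ := Nat.exists_eq_add_of_le hp
      rw [pow_succ, ha, hb]
      simp only [Nat.add_sub_cancel_left]
      have : (1 + a) * (1 + b) - 1 = b + (1 + b) * a := by
        rw [show (1 + a) * (1 + b) = 1 + (b + (1 + b) * a) by ring, Nat.add_sub_cancel_left]
      rw [this]
      ring
    omega

theorem coeff_mul_expand {d : ℕ} {R : Type} [CommRing R] (p : ℕ) (f g : MvPolynomial (Fin d) R)
    (u : Fin d →₀ ℕ) : coeff u (f * expand p g) =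
      ∑ u' ∈ g.support, if p • u' ≤ u then coeff (u - p • u') f * coeff u' g else 0 := by
  classical
  conv_lhs => rw [g.as_sum]
  simp only [map_sum, expand_monomial, Finset.mul_sum, coeff_sum, coeff_mul_monomial']

/-- [TF b1] -/
theorem p_opmul : S_opmul := by
  classical
  intro p d r D R _ J H hp hH n
  induction n with
  | zero =>
    ext ⟨v, j⟩ ⟨w, k⟩
    simp only [pow_zero, opMat, hpow, one_smul]
    rw [Matrix.one_apply, Matrix.one_apply]
    by_cases hvw : v = w
    · subst hvw
      by_cases hjk : j = k
      · subst hjk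
        simp
      · simp [hjk]
    · have h1 : ¬ ((v, j) = (w, k)) := fun h => hvw (Prod.ext_iff.mp h).1
      rw [if_neg h1]
      split_ifs with h2 h3
      · rw [coeff_one, if_neg]
        intro h4
        apply hvw
        have h5 : ex v = ex w := le_antisymm h2 (tsub_eq_zero_iff_le.mp h4.symm)
        apply Subtype.ext
        funext i
        apply Fin.ext
        have := DFunLike.congr_fun h5 i
        simpa using this
      · simp
      · rfl
  | succ n ih =>
    rw [pow_succ', ih]
    ext ⟨v, j⟩ ⟨w, l⟩
    rw [Matrix.mul_apply]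
    simp only [opMat, hpow]
    rw [Fintype.sum_prod_type, Finset.sum_comm]
    simp only [Matrix.mul_apply, Matrix.map_apply, coeff_sum, coeff_mul_expand]
    split_ifs with hv
    · refine Finset.sum_congr rfl fun k _ => ?_
      set f := H j k with hf
      set g := hpow p H n k l with hg
      refine Finset.sum_bij_ne_zero (fun (z : Idx d D J) _ _ => p ^ n • ex w - ex z) ?_ ?_ ?_ ?_
      · intro z _ hz
        by_cases h2 : ex z ≤ p ^ n • ex w
        · rw [if_pos h2] at hz
          rw [mem_support_iff]
          exact right_ne_zero_of_mul hz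
        · rw [if_neg h2, mul_zero] at hz
          exact absurd rfl hz
      · intro z _ hz z' _ hz' hzz
        by_cases h2 : ex z ≤ p ^ n • ex w
        swap
        · rw [if_neg h2, mul_zero] at hz
          exact absurd rfl hz
        by_cases h2' : ex z' ≤ p ^ n • ex w
        swap
        · rw [if_neg h2', mul_zero] at hz'
          exact absurd rfl hz'
        apply Subtype.ext
        funext i
        apply Fin.ext
        have h3 := DFunLike.congr_fun hzz i
        have h4 := h2 i
        have h5 := h2' i
        simp only [Finsupp.tsub_apply, Finsupp.smul_apply, smul_eq_mul, ex_apply] at h3 h4 h5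
        omega
      · intro u' hu' hne
        by_cases h1 : p • u' ≤ p ^ (n + 1) • ex w - ex v
        swap
        · rw [if_neg h1] at hne
          exact absurd rfl hne
        rw [if_pos h1] at hne
        have hfne := left_ne_zero_of_mul hne
        have hgne := right_ne_zero_of_mul hne
        have key : ∀ i, u' i ≤ p ^ n * (w.1 i : ℕ) ∧
            (v.1 i : ℕ) ≤ p * (p ^ n * (w.1 i : ℕ) - u' i) ∧
            p * (p ^ n * (w.1 i : ℕ) - u' i) ≤ (p - 1) * D + (v.1 i : ℕ) ∧
            p ^ (n + 1) * (w.1 i : ℕ) - (v.1 i : ℕ) - p * u' i =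
              p * (p ^ n * (w.1 i : ℕ) - u' i) - (v.1 i : ℕ) := by
          intro i
          have h2 := h1 i
          have h3 := hv i
          have h4 : (p ^ (n + 1) • ex w - ex v - p • u') i ≤ (p - 1) * D :=
            (monomial_le_degreeOf i (mem_support_iff.mpr hfne)).trans (hH i j k)
          simp only [Finsupp.tsub_apply, Finsupp.smul_apply, smul_eq_mul, ex_apply] at h2 h3 h4
          have h5 : p ^ (n + 1) * (w.1 i : ℕ) = p * (p ^ n * (w.1 i : ℕ)) := by ring
          rw [h5] at h2 h3 h4 ⊢
          have h6 : u' i ≤ p ^ n * (w.1 i : ℕ) := by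
            have : p * u' i ≤ p * (p ^ n * (w.1 i : ℕ)) := h2.trans (Nat.sub_le _ _)
            exact Nat.le_of_mul_le_mul_left this (by omega)
          obtain ⟨a, ha⟩ := Nat.exists_eq_add_of_le h6
          rw [ha] at h2 h3 h4 ⊢
          rw [Nat.mul_add] at h2 h3 h4
          rw [Nat.mul_add]
          refine ⟨by omega, ?_, ?_, ?_⟩
          · rw [Nat.add_sub_cancel_left]
            omega
          · rw [Nat.add_sub_cancel_left]
            omega
          · rw [Nat.add_sub_cancel_left]
            omega
        have hzD : ∀ i, p ^ n * (w.1 i : ℕ) - u' i < D + 1 := by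
          intro i
          obtain ⟨-, -, h3, -⟩ := key i
          have h4 : (v.1 i : ℕ) ≤ D := Nat.lt_succ_iff.mp (v.1 i).2
          have h5 : p * (p ^ n * (w.1 i : ℕ) - u' i) ≤ p * D := by
            refine h3.trans ?_
            obtain ⟨b, hb⟩ := Nat.exists_eq_add_of_le hp
            rw [hb]
            have : (2 + b - 1) = 1 + b := by omega
            rw [this]
            nlinarith
          exact Nat.lt_succ_of_le (Nat.le_of_mul_le_mul_left h5 (by omega))
        have hzJ : ∀ i ∉ J, (⟨p ^ n * (w.1 i : ℕ) - u' i, hzD i⟩ : Fin (D + 1)) ≠ 0 := by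
          intro i hi h0
          obtain ⟨-, h2, -, -⟩ := key i
          have h3 := v.2 i hi
          have h4 : p ^ n * (w.1 i : ℕ) - u' i = 0 := by
            simpa using congrArg Fin.val h0
          rw [h4, mul_zero] at h2
          exact h3 (Fin.ext (by simpa using h2))
        let z : Idx d D J := ⟨fun i => ⟨p ^ n * (w.1 i : ℕ) - u' i, hzD i⟩, hzJ⟩
        have hz1 : ex v ≤ p • ex z := by
          intro i
          simpa [z] using (key i).2.1
        have hz2 : ex z ≤ p ^ n • ex w := by
          intro i
          simp [z]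
        have hz3 : p ^ n • ex w - ex z = u' := by
          ext i
          have := (key i).1
          simp only [Finsupp.tsub_apply, Finsupp.smul_apply, smul_eq_mul, ex_apply, z]
          omega
        have hz4 : p • ex z - ex v = p ^ (n + 1) • ex w - ex v - p • u' := by
          ext i
          have := (key i).2.2.2
          simp only [Finsupp.tsub_apply, Finsupp.smul_apply, smul_eq_mul, ex_apply, z]
          exact this.symm
        refine ⟨z, Finset.mem_univ _, ?_, hz3⟩
        rw [if_pos hz1, if_pos hz2, hz3, hz4]
        exact hne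
      · intro z _ hz
        by_cases h1 : ex v ≤ p • ex z
        swap
        · rw [if_neg h1, zero_mul] at hz
          exact absurd rfl hz
        by_cases h2 : ex z ≤ p ^ n • ex w
        swap
        · rw [if_neg h2, mul_zero] at hz
          exact absurd rfl hz
        have h5 : ∀ i, p ^ (n + 1) * (w.1 i : ℕ) = p * (p ^ n * (w.1 i : ℕ)) := fun i => by ring
        have h3 : p • (p ^ n • ex w - ex z) ≤ p ^ (n + 1) • ex w - ex v := by
          intro i
          have h1i := h1 i
          have h2i := h2 i
          simp only [Finsupp.tsub_apply, Finsupp.smul_apply, smul_eq_mul, ex_apply] at h1i h2i ⊢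
          rw [h5, Nat.mul_sub]
          omega
        have h4 : p ^ (n + 1) • ex w - ex v - p • (p ^ n • ex w - ex z) = p • ex z - ex v := by
          ext i
          have h1i := h1 i
          have h2i := h2 i
          simp only [Finsupp.tsub_apply, Finsupp.smul_apply, smul_eq_mul, ex_apply] at h1i h2i ⊢
          rw [h5, Nat.mul_sub]
          have h6 : p * (z.1 i : ℕ) ≤ p * (p ^ n * (w.1 i : ℕ)) := Nat.mul_le_mul_left _ h2i
          omega
        rw [if_pos h1, if_pos h2, if_pos h3, h4]
    · symm
      apply (Finset.sum_eq_zero fun k _ => ?_).symm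
      refine Finset.sum_eq_zero fun z _ => ?_
      by_cases h1 : ex v ≤ p • ex z
      swap
      · rw [if_neg h1, zero_mul]
      by_cases h2 : ex z ≤ p ^ n • ex w
      swap
      · rw [if_neg h2, mul_zero]
      exfalso
      apply hv
      intro i
      have h1i := h1 i
      have h2i := h2 i
      simp only [Finsupp.smul_apply, smul_eq_mul, ex_apply] at h1i h2i ⊢
      have h6 : p * (z.1 i : ℕ) ≤ p * (p ^ n * (w.1 i : ℕ)) := Nat.mul_le_mul_left _ h2i
      have h5 : p ^ (n + 1) * (w.1 i : ℕ) = p * (p ^ n * (w.1 i : ℕ)) := by ring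
      omega

end Pool.Agent.F2TF
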