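import Pool.Agent.Lib.MP_305fdd_al.F2.TF.Stm

set_option autoImplicit false

namespace Pool.Agent.F2TF

open MvPolynomial Matrix

/-- [TF b3] -/
theorem p_teisum : S_teisum := by
  classical
  intro p hp K O _ _ _ _ _ T n m hn
  have hQ : 1 < p ^ n := Nat.one_lt_pow hn hp.out.one_lt
  haveI : NeZero (p ^ n - 1) := ⟨by omega⟩
  obtain ⟨G, hG, ⟨hft⟩, hcy⟩ : ∃ G : Subgroup Kˣ, (∀ g, g ∈ G ↔ g ^ (p ^ n - 1) = 1) ∧
      Nonempty (Fintype G) ∧ IsCyclic G :=
    ⟨rootsOfUnity _ K, fun g => mem_rootsOfUnity _ g, ⟨Fintype.ofFinite _⟩, inferInstance⟩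
  have h0 : (0 : K) ∈ fset p n K := by
    rw [mem_fset hn]
    exact zero_pow (by omega)
  -- the bijection with the roots of unity
  have hbij : ∀ f : K → O, ∑ y ∈ (fset p n K).erase 0, f y = ∑ g : G, f ((g : Kˣ) : K) := by
    intro f
    symm
    refine Finset.sum_bij (fun (g : G) _ => (((g : Kˣ)) : K)) ?_ ?_ ?_ ?_
    · intro g _
      rw [Finset.mem_erase, mem_fset hn]
      refine ⟨Units.ne_zero _, ?_⟩
      have h1 : ((g : Kˣ)) ^ (p ^ n - 1) = 1 := (hG _).mp g.2
      have h2 : (((g : Kˣ)) : K) ^ (p ^ n - 1) = 1 := by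
        rw [← Units.val_pow_eq_pow_val, h1, Units.val_one]
      calc (((g : Kˣ)) : K) ^ (p ^ n) = (((g : Kˣ)) : K) ^ (p ^ n - 1 + 1) := by
            rw [Nat.sub_add_cancel hQ.le]
        _ = _ := by rw [pow_succ, h2, one_mul]
    · intro g _ g' _ h
      exact Subtype.ext (Units.ext h)
    · intro y hy
      rw [Finset.mem_erase, mem_fset hn] at hy
      obtain ⟨hy0, hy⟩ := hy
      have h3 : y ^ (p ^ n - 1) = 1 := by
        have h4 : y ^ (p ^ n - 1) * y = 1 * y := by
          rw [← pow_succ, Nat.sub_add_cancel hQ.le, hy, one_mul]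
        exact mul_right_cancel₀ hy0 h4
      refine ⟨⟨Units.mk0 y hy0, ?_⟩, Finset.mem_univ _, rfl⟩
      rw [hG]
      ext
      simpa using h3
    · intro g _
      rfl
  have hcard : Fintype.card G = p ^ n - 1 := by
    have h1 := card_fset (p := p) (K := K) hn
    have h2 : ((fset p n K).erase 0).card = p ^ n - 1 := by
      rw [Finset.card_erase_of_mem h0, h1]
    rw [← h2, ← Finset.card_univ]
    symm
    refine Finset.card_bij' (fun y hy => (⟨Units.mk0 y (Finset.mem_erase.mp hy).1, ?_⟩ : G))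
      (fun g _ => ((g : Kˣ) : K)) ?_ ?_ ?_ ?_
    · have hy' := Finset.mem_erase.mp hy
      rw [mem_fset hn] at hy'
      have h4 : y ^ (p ^ n - 1) * y = 1 * y := by
        rw [← pow_succ, Nat.sub_add_cancel hQ.le, hy'.2, one_mul]
      rw [hG]
      ext
      simpa using mul_right_cancel₀ hy'.1 h4
    · intro y hy
      exact Finset.mem_univ _
    · intro g _
      rw [Finset.mem_erase, mem_fset hn]
      refine ⟨Units.ne_zero _, ?_⟩
      have h1 : ((g : Kˣ)) ^ (p ^ n - 1) = 1 := (hG _).mp g.2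
      have h2 : (((g : Kˣ)) : K) ^ (p ^ n - 1) = 1 := by
        rw [← Units.val_pow_eq_pow_val, h1, Units.val_one]
      calc (((g : Kˣ)) : K) ^ (p ^ n) = (((g : Kˣ)) : K) ^ (p ^ n - 1 + 1) := by
            rw [Nat.sub_add_cancel hQ.le]
        _ = _ := by rw [pow_succ, h2, one_mul]
    · intro y hy
      rfl
    · intro g _
      exact Subtype.ext (Units.ext rfl)
  rw [← Finset.add_sum_erase _ _ h0, hbij]
  let φ : G →* O :=
    { toFun := fun g => T.tei ((g : Kˣ) : K) ^ m
      map_one' := by simp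
      map_mul' := fun g g' => by simp [mul_pow] }
  have hsum : ∑ g : G, T.tei ((g : Kˣ) : K) ^ m = if φ = 1 then (Fintype.card G : O) else 0 :=
    (sum_hom_units φ).trans (by split_ifs <;> simp)
  rw [hsum, hcard, T.tei_zero]
  have hcast : ((p ^ n - 1 : ℕ) : O) = (p : O) ^ n - 1 := by
    rw [Nat.cast_sub hQ.le]
    push_cast
    rfl
  have hφ : φ = 1 ↔ p ^ n - 1 ∣ m := by
    constructor
    · intro h
      obtain ⟨g, hg⟩ := IsCyclic.exists_generator (α := G)
      have h1 : T.tei ((g : Kˣ) : K) ^ m = 1 := DFunLike.congr_fun h g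
      have h2 : (((g : Kˣ)) : K) ^ m = 1 := by
        have := congrArg T.red h1
        rw [map_pow, T.red_tei, map_one] at this
        exact this
      have h3 : g ^ m = 1 := by
        apply Subtype.ext
        apply Units.ext
        simpa using h2
      rw [← hcard, ← Nat.card_eq_fintype_card, ← orderOf_eq_card_of_forall_mem_zpowers hg]
      exact orderOf_dvd_of_pow_eq_one h3
    · rintro ⟨c, rfl⟩
      ext g
      have h1 : ((g : Kˣ)) ^ (p ^ n - 1) = 1 := (hG _).mp g.2
      have h2 : (((g : Kˣ)) : K) ^ (p ^ n - 1) = 1 := by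
        rw [← Units.val_pow_eq_pow_val, h1, Units.val_one]
      change T.tei ((g : Kˣ) : K) ^ ((p ^ n - 1) * c) = 1
      rw [← map_pow, pow_mul, h2, one_pow, map_one]
  by_cases hm : m = 0
  · subst hm
    rw [if_pos (hφ.mpr (dvd_zero _)), if_pos (dvd_zero _), if_pos rfl, hcast]
    ring
  · rw [zero_pow hm, zero_add]
    by_cases hd : p ^ n - 1 ∣ m
    · rw [if_pos (hφ.mpr hd), if_pos hd, if_neg hm, hcast]
    · rw [if_neg (fun h => hd (hφ.mp h)), if_neg hd]

end Pool.Agent.F2TF
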