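import Pool.Agent.Lib.MP_305fdd_al.F2.TF.Stm

set_option autoImplicit false

namespace Pool.Agent.F2TF

open MvPolynomial Matrix

open Classical in
theorem phiMat_pow {p : ℕ} [hp : Fact p.Prime] {K O : Type} [Field K] [CommRing O] (τ : K →* O)
    (d r M : ℕ) (hM : M ≠ 0) (H : Matrix (Fin r) (Fin r) (MvPolynomial (Fin d) ℤ)) (n : ℕ)
    (y z : ↥(fpts p M d K)) (j k : Fin r) :
    (phiMat p M τ H ^ n) (y, j) (z, k) =
      if (z : Fin d → K) = (fun i => (y : Fin d → K) i ^ p ^ n) then
        aeval (fun i => τ ((y : Fin d → K) i)) (hpow p H n j k) else 0 := by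
  classical
  induction n generalizing y j with
  | zero =>
    simp only [pow_zero, pow_one, hpow]
    rw [Matrix.one_apply, Matrix.one_apply]
    by_cases hyz : y = z
    · subst hyz
      by_cases hjk : j = k
      · subst hjk
        simp
      · simp [hjk]
    · have h1 : ¬ ((z : Fin d → K) = fun i => (y : Fin d → K) i) := fun h =>
        hyz (Subtype.ext h.symm)
      rw [if_neg h1, if_neg (fun h => hyz (Prod.ext_iff.mp h).1)]
  | succ n ih =>
    rw [pow_succ', Matrix.mul_apply, Fintype.sum_prod_type]
    have hmem : (fun i => (y : Fin d → K) i ^ p) ∈ fpts p M d K := by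
      have := y.2
      rw [mem_fpts hM] at this ⊢
      intro i
      rw [← pow_mul, mul_comm, pow_mul, this i]
    rw [Finset.sum_eq_single (⟨fun i => (y : Fin d → K) i ^ p, hmem⟩ : ↥(fpts p M d K))]
    · simp only [phiMat, if_true]
      simp only [ih]
      have h2 : ∀ i, ((y : Fin d → K) i ^ p) ^ p ^ n = (y : Fin d → K) i ^ p ^ (n + 1) := by
        intro i
        rw [← pow_mul, pow_succ']
      simp only [h2]
      split_ifs with h3
      · simp only [hpow, Matrix.mul_apply, Matrix.map_apply, map_sum, map_mul]
        refine Finset.sum_congr rfl fun k' _ => ?_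
        congr 1
        rw [aeval_expand]
        simp only [map_pow]
        rfl
      · simp
    · intro z' _ hz'
      refine Finset.sum_eq_zero fun k' _ => ?_
      have : phiMat p M τ H (y, j) (z', k') = 0 := by
        rw [phiMat, if_neg]
        intro h
        exact hz' (Subtype.ext h)
      rw [this, zero_mul]
    · intro h
      exact absurd (Finset.mem_univ _) h

/-- [TF b5] -/
theorem p_phitr : S_phitr := by
  classical
  intro p hp K O _ _ τ d r M n H hn hM hnM
  rw [Matrix.trace, Fintype.sum_prod_type]
  simp only [Matrix.diag_apply, phiMat_pow τ d r M hM H]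
  have h1 : ∀ y : ↥(fpts p M d K), ∑ j, (if (y : Fin d → K) = (fun i => (y : Fin d → K) i ^ p ^ n)
      then aeval (fun i => τ ((y : Fin d → K) i)) (hpow p H n j j) else 0) =
      if (y : Fin d → K) = (fun i => (y : Fin d → K) i ^ p ^ n) then
        aeval (fun i => τ ((y : Fin d → K) i)) (hpow p H n).trace else 0 := by
    intro y
    split_ifs
    · rw [Matrix.trace, map_sum]
      rfl
    · simp
  simp only [h1]
  rw [Finset.sum_coe_sort (fpts p M d K) (fun y => if y = (fun i => y i ^ p ^ n) then
        aeval (fun i => τ (y i)) (hpow p H n).trace else 0), ← Finset.sum_filter]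
  refine Finset.sum_congr ?_ fun _ _ => rfl
  ext y
  rw [Finset.mem_filter, mem_fpts hM, mem_fpts hn]
  constructor
  · rintro ⟨-, h⟩ i
    exact (congrFun h i).symm
  · intro h
    refine ⟨fun i => ?_, funext fun i => (h i).symm⟩
    obtain ⟨c, rfl⟩ := hnM
    have : ∀ c : ℕ, y i ^ p ^ (n * c) = y i := by
      intro c
      induction c with
      | zero => simp
      | succ c ih => rw [Nat.mul_succ, pow_add, pow_mul, ih, h i]
    exact this c

end Pool.Agent.F2TF
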