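import Pool.Agent.Lib.MP_305fdd_al.F2.TF.Stm

set_option autoImplicit false

namespace Pool.Agent.F2TF

open MvPolynomial Matrix

/-- [TF b6] -/
theorem p_trace (h_opmul : S_opmul) (h_opdeg : S_opdeg) (h_ptsum : S_ptsum)
    (h_phitr : S_phitr) : S_trace := by
  classical
  intro p hp K O _ _ _ _ _ T d r D M n H hH hn hM hnM
  have hdeg : ∀ i, degreeOf i (hpow p H n).trace ≤ (p ^ n - 1) * D := by
    intro i
    rw [Matrix.trace]
    refine (degreeOf_sum_le _ _ _).trans (Finset.sup_le fun l _ => ?_)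
    exact h_opdeg p d r D ℤ H hp.out.one_le hH n i l l
  rw [h_phitr p K O T.tei d r M n H hn hM hnM,
    h_ptsum p K O T d D n (hpow p H n).trace hn hdeg]
  refine Finset.sum_congr rfl fun J _ => ?_
  congr 1
  have ht : (opMat (p ^ n) D J (hpow p H n)).trace = ∑ v : Idx d D J, ∑ j : Fin r,
      opMat (p ^ n) D J (hpow p H n) (v, j) (v, j) := by
    rw [Matrix.trace, Fintype.sum_prod_type]
    rfl
  rw [h_opmul p d r D ℤ J H hp.out.two_le hH n, ht]
  push_cast
  refine Finset.sum_congr rfl fun v _ => ?_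
  have h1 : ex v ≤ p ^ n • ex v := by
    intro i
    simp only [Finsupp.smul_apply, smul_eq_mul, ex_apply]
    exact Nat.le_mul_of_pos_left _ (Nat.pos_of_ne_zero (pow_ne_zero _ hp.out.ne_zero))
  have h2 : p ^ n • ex v - ex v = (p ^ n - 1) • ex v := by
    ext i
    simp only [Finsupp.tsub_apply, Finsupp.smul_apply, smul_eq_mul, ex_apply]
    rw [Nat.sub_mul, one_mul]
  simp only [opMat, if_pos h1, h2]
  rw [Matrix.trace, coeff_sum]
  push_cast
  rfl

end Pool.Agent.F2TF
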