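import Pool.Agent.Lib.MP_305fdd_al.F2.TF.Stm

set_option autoImplicit false

namespace Pool.Agent.F2TF

open Matrix

section

variable {O : Type} [CommRing O] {n : Type} [Fintype n] [DecidableEq n]

/-- Jacobi's formula for matrices of polynomials -/
private theorem p_ldchar_jacobi (A : Matrix n n (Polynomial O)) :
    Polynomial.derivative A.det =
      (A.adjugate * A.map Polynomial.derivative).trace := by
  have h1 : Polynomial.derivative A.det =
      ∑ i, (A.updateCol i fun a => Polynomial.derivative (A a i)).det := by
    simp only [det_apply']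
    rw [Finset.sum_comm, Polynomial.derivative_sum]
    refine Finset.sum_congr rfl fun σ _ => ?_
    rw [Polynomial.derivative_mul, Polynomial.derivative_intCast, zero_mul, zero_add,
      Polynomial.derivative_prod_finset, Finset.mul_sum]
    refine Finset.sum_congr rfl fun i _ => ?_
    congr 1
    rw [← Finset.prod_erase_mul _ _ (Finset.mem_univ i)]
    congr 1
    · refine Finset.prod_congr rfl fun j hj => ?_
      rw [updateCol_ne (Finset.ne_of_mem_erase hj)]
    · rw [updateCol_self]
  rw [h1, trace]
  refine Finset.sum_congr rfl fun i _ => ?_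
  have h2 := congrFun (cramer_eq_adjugate_mulVec A fun a => Polynomial.derivative (A a i)) i
  rw [cramer_apply] at h2
  rw [h2]
  rfl

/-- `∑ M ^ k X ^ k` -/
private noncomputable def p_ldchar_B (M : Matrix n n O) : Matrix n n (PowerSeries O) :=
  fun i j => PowerSeries.mk fun k => (M ^ k) i j

private theorem p_ldchar_inv (M : Matrix n n O) :
    ((1 - (Polynomial.X : Polynomial O) • M.map Polynomial.C).map
      (Polynomial.coeToPowerSeries.ringHom (R := O))) * p_ldchar_B M = 1 := by
  have h1 : ((1 - (Polynomial.X : Polynomial O) • M.map Polynomial.C).map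
      (Polynomial.coeToPowerSeries.ringHom (R := O))) =
      1 - (PowerSeries.X : PowerSeries O) • M.map (PowerSeries.C (R := O)) := by
    ext i j
    simp only [Matrix.map_apply, Matrix.sub_apply, Matrix.smul_apply, smul_eq_mul, map_sub,
      map_mul, Polynomial.coeToPowerSeries.ringHom_apply, Polynomial.coe_X, Polynomial.coe_C]
    by_cases h : i = j
    · subst h
      simp
    · simp [Matrix.one_apply_ne h]
  rw [h1, sub_mul, one_mul, smul_mul_assoc]
  ext i j k
  simp only [Matrix.sub_apply, Matrix.smul_apply, smul_eq_mul, map_sub, Matrix.mul_apply,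
    Matrix.map_apply]
  cases k with
  | zero =>
    simp only [p_ldchar_B, PowerSeries.coeff_mk, pow_zero, PowerSeries.coeff_zero_X_mul, sub_zero]
    by_cases h : i = j
    · subst h
      simp
    · simp [Matrix.one_apply_ne h]
  | succ k =>
    rw [PowerSeries.coeff_succ_X_mul, map_sum]
    simp only [p_ldchar_B, PowerSeries.coeff_mk, PowerSeries.coeff_C_mul]
    rw [pow_succ', Matrix.mul_apply, sub_self]
    by_cases h : i = j
    · subst h
      simp
    · simp [Matrix.one_apply_ne h]

theorem p_ldchar : S_ldchar := by
  intro O _ n _ _ M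
  set φ := (Polynomial.coeToPowerSeries.ringHom (R := O)) with hφ
  set A : Matrix n n (Polynomial O) := 1 - (Polynomial.X : Polynomial O) • M.map Polynomial.C
    with hA
  have hf : M.charpolyRev = A.det := rfl
  have hder : A.map Polynomial.derivative = - M.map Polynomial.C := by
    ext1 i j
    simp only [hA, Matrix.map_apply, Matrix.sub_apply, Matrix.smul_apply, smul_eq_mul,
      Matrix.neg_apply, Polynomial.derivative_sub, Polynomial.derivative_mul,
      Polynomial.derivative_X, Polynomial.derivative_C, mul_zero, add_zero, one_mul]
    by_cases h : i = j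
    · subst h
      simp
    · simp [Matrix.one_apply_ne h]
  have hadj : A.adjugate.map φ = φ A.det • p_ldchar_B M := by
    have h1 : A.adjugate.map φ * A.map φ = φ A.det • (1 : Matrix n n (PowerSeries O)) := by
      rw [← Matrix.map_mul, adjugate_mul]
      ext1 i j
      by_cases h : i = j
      · subst h
        simp
      · simp [Matrix.one_apply_ne h]
    calc A.adjugate.map φ = A.adjugate.map φ * (A.map φ * p_ldchar_B M) := by
          rw [p_ldchar_inv, mul_one]
      _ = φ A.det • p_ldchar_B M := by
          rw [← Matrix.mul_assoc, h1, smul_mul_assoc, one_mul]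
  have hmain : φ (Polynomial.derivative A.det) =
      - (φ A.det * PowerSeries.mk fun k => (M ^ (k + 1)).trace) := by
    rw [p_ldchar_jacobi, hder, mul_neg, trace_neg, map_neg]
    congr 1
    have h1 : φ ((A.adjugate * M.map Polynomial.C).trace) =
        (A.adjugate.map φ * (M.map Polynomial.C).map φ).trace := by
      rw [← Matrix.map_mul, trace, trace, map_sum]
      rfl
    rw [h1, hadj, smul_mul_assoc, trace_smul, smul_eq_mul]
    congr 1
    ext k
    rw [trace, map_sum, PowerSeries.coeff_mk, pow_succ, trace]
    refine Finset.sum_congr rfl fun i _ => ?_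
    rw [diag_apply, diag_apply, Matrix.mul_apply, Matrix.mul_apply, map_sum]
    refine Finset.sum_congr rfl fun j _ => ?_
    simp only [Matrix.map_apply, p_ldchar_B, hφ, Polynomial.coeToPowerSeries.ringHom_apply,
      Polynomial.coe_C, PowerSeries.coeff_mul_C, PowerSeries.coeff_mk]
  constructor
  · rw [Polynomial.coeff_coe]
    have := eval_charpolyRev (M := M)
    rwa [← Polynomial.coeff_zero_eq_eval_zero] at this
  · intro k
    have h1 := congrArg (PowerSeries.coeff k) hmain
    rw [hφ, Polynomial.coeToPowerSeries.ringHom_apply, Polynomial.coeToPowerSeries.ringHom_apply,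
      Polynomial.coeff_coe, Polynomial.coeff_derivative, map_neg, mul_comm,
      mul_comm ((A.det : Polynomial O) : PowerSeries O), PowerSeries.coeff_mul,
      Finset.Nat.sum_antidiagonal_eq_sum_range_succ_mk] at h1
    rw [hf, Polynomial.coeff_coe, h1]
    simp only [PowerSeries.coeff_mk]

end

end Pool.Agent.F2TF
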