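import Pool.Agent.Lib.MP_305fdd_al.F2.TF.Stm

set_option autoImplicit false

namespace Pool.Agent.F2TF

open Matrix

theorem ld_iff {O : Type} [CommRing O] (f : PowerSeries O) (s : ℕ → O) :
    LD f s ↔ PowerSeries.coeff 0 f = 1 ∧
      PowerSeries.derivative O f = - (PowerSeries.mk (fun n => s (n + 1)) * f) := by
  unfold LD
  refine and_congr_right fun _ => ?_
  rw [PowerSeries.ext_iff]
  refine forall_congr' fun k => ?_
  rw [PowerSeries.coeff_derivative, map_neg, PowerSeries.coeff_mul,
    Finset.Nat.sum_antidiagonal_eq_sum_range_succ_mk]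
  simp only [PowerSeries.coeff_mk]
  rw [mul_comm]

/-- [TF b8] -/
theorem p_ld : S_ld := by
  constructor
  · intro O _ f g s t hf hg
    rw [ld_iff] at hf hg ⊢
    refine ⟨?_, ?_⟩
    · have h1 := hf.1
      have h2 := hg.1
      simp only [PowerSeries.coeff_zero_eq_constantCoeff] at h1 h2 ⊢
      rw [map_mul, h1, h2, one_mul]
    · have h3 : (PowerSeries.mk fun n => (s + t) (n + 1)) =
          PowerSeries.mk (fun n => s (n + 1)) + PowerSeries.mk (fun n => t (n + 1)) := by
        ext n
        simp
      rw [Derivation.leibniz, hf.2, hg.2, h3, smul_eq_mul, smul_eq_mul]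
      ring
  · intro O _ _ _ f g s t N hf hg hst k
    induction k using Nat.strong_induction_on with
    | _ k ih =>
      intro hk
      rcases k with _ | k
      · rw [hf.1, hg.1]
      · have h1 := hf.2 k
        have h2 := hg.2 k
        have h3 : ((k : O) + 1) ≠ 0 := by exact_mod_cast Nat.succ_ne_zero k
        apply mul_left_cancel₀ h3
        rw [h1, h2]
        congr 1
        refine Finset.sum_congr rfl fun j hj => ?_
        rw [Finset.mem_range] at hj
        rw [hst (j + 1) (by omega) (by omega), ih (k - j) (by omega) (by omega)]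

end Pool.Agent.F2TF
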