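import Pool.Agent.Lib.MP_305fdd_al.F2.TF.Stm

set_option autoImplicit false

namespace Pool.Agent.F2TF

open MvPolynomial Matrix

theorem charpolyRev_map {R S n : Type} [CommRing R] [CommRing S] [Fintype n] [DecidableEq n]
    (f : R →+* S) (A : Matrix n n R) :
    (A.map f).charpolyRev = A.charpolyRev.map f := by
  rw [charpolyRev, charpolyRev, ← Polynomial.coe_mapRingHom, RingHom.map_det]
  congr 1
  ext i j : 1
  by_cases h : i = j
  · subst h
    simp
  · simp [Matrix.one_apply, h]

theorem LD_one {O : Type} [CommRing O] : LD (1 : PowerSeries O) 0 := by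
  refine ⟨by simp, fun k => ?_⟩
  simp [PowerSeries.coeff_one]

theorem LD_prod (h_ld : S_ld) {O ι : Type} [CommRing O] (t : Finset ι) (f : ι → PowerSeries O)
    (s : ι → ℕ → O) (h : ∀ i ∈ t, LD (f i) (s i)) : LD (∏ i ∈ t, f i) (∑ i ∈ t, s i) := by
  classical
  induction t using Finset.induction_on with
  | empty => simpa using LD_one
  | insert a t ha ih =>
    rw [Finset.prod_insert ha, Finset.sum_insert ha]
    exact h_ld.1 O _ _ _ _ (h a (Finset.mem_insert_self a t))
      (ih fun i hi => h i (Finset.mem_insert_of_mem hi))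

/-- [TF b9] -/
theorem p_modp (h_trace : S_trace) (h_ldchar : S_ldchar) (h_ld : S_ld) : S_modp := by
  classical
  intro p hp K O _ _ _ _ _ _ T d r D M N H hH hM hdiv hΦ k hk
  -- the matrices over `O`
  let A : ∀ J : Finset (Fin d), Matrix (Idx d D J × Fin r) (Idx d D J × Fin r) O := fun J =>
    ((p : O) ^ J.card) • (opMat p D J H).map (Int.castRingHom O)
  have hAtr : ∀ (J : Finset (Fin d)) (n : ℕ), (A J ^ n).trace =
      ((p : O) ^ n) ^ J.card * (((opMat p D J H ^ n).trace : ℤ) : O) := by
    intro J n
    have h1 : ((opMat p D J H).map (Int.castRingHom O)) ^ n =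
        (opMat p D J H ^ n).map (Int.castRingHom O) := by
      have := map_pow ((Int.castRingHom O).mapMatrix (m := Idx d D J × Fin r)) (opMat p D J H) n
      exact this.symm
    have h2 : ((opMat p D J H ^ n).map (Int.castRingHom O)).trace =
        (((opMat p D J H ^ n).trace : ℤ) : O) := by
      simp [Matrix.trace]
    simp only [A]
    rw [smul_pow, h1, Matrix.trace_smul, h2, smul_eq_mul, ← pow_mul, ← pow_mul, mul_comm n]
  let Φ := phiMat p M T.tei H (d := d) (r := r)
  let odd : Finset (Finset (Fin d)) := Finset.univ.filter fun J => Odd (d - J.card)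
  let even : Finset (Finset (Fin d)) := Finset.univ.filter fun J => ¬ Odd (d - J.card)
  have hf : LD ((Φ.charpolyRev : PowerSeries O) *
      ∏ J ∈ odd, ((A J).charpolyRev : PowerSeries O))
      ((fun n => (Φ ^ n).trace) + ∑ J ∈ odd, fun n => (A J ^ n).trace) :=
    h_ld.1 O _ _ _ _ (h_ldchar O _ Φ)
      (LD_prod h_ld odd _ (fun J n => (A J ^ n).trace) fun J _ => h_ldchar O _ (A J))
  have hg : LD (∏ J ∈ even, ((A J).charpolyRev : PowerSeries O))
      (∑ J ∈ even, fun n => (A J ^ n).trace) :=
    LD_prod h_ld even _ (fun J n => (A J ^ n).trace) fun J _ => h_ldchar O _ (A J)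
  have heq : ∀ k ≤ N, PowerSeries.coeff k ((Φ.charpolyRev : PowerSeries O) *
      ∏ J ∈ odd, ((A J).charpolyRev : PowerSeries O)) =
      PowerSeries.coeff k (∏ J ∈ even, ((A J).charpolyRev : PowerSeries O)) := by
    refine h_ld.2 O _ _ _ _ N hf hg ?_
    intro n hn1 hnN
    simp only [Pi.add_apply, Finset.sum_apply]
    have h1 := h_trace p K O T d r D M n H hH (by omega) hM (hdiv n hn1 hnN)
    have h2 : ∑ J : Finset (Fin d), (-1 : O) ^ (d - J.card) * (A J ^ n).trace =
        (Φ ^ n).trace := by
      rw [h1]
      refine Finset.sum_congr rfl fun J _ => ?_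
      rw [hAtr]
      ring
    rw [← h2, ← Finset.sum_filter_add_sum_filter_not Finset.univ
      (fun J : Finset (Fin d) => Odd (d - J.card))]
    have h3 : ∑ J ∈ odd, (-1 : O) ^ (d - J.card) * (A J ^ n).trace =
        - ∑ J ∈ odd, (A J ^ n).trace := by
      rw [← Finset.sum_neg_distrib]
      refine Finset.sum_congr rfl fun J hJ => ?_
      rw [(Finset.mem_filter.mp hJ).2.neg_one_pow]
      ring
    have h4 : ∑ J ∈ even, (-1 : O) ^ (d - J.card) * (A J ^ n).trace =
        ∑ J ∈ even, (A J ^ n).trace := by
      refine Finset.sum_congr rfl fun J hJ => ?_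
      rw [(Nat.not_odd_iff_even.mp (Finset.mem_filter.mp hJ).2).neg_one_pow]
      ring
    change (∑ J ∈ odd, (-1 : O) ^ (d - J.card) * (A J ^ n).trace +
      ∑ J ∈ even, (-1 : O) ^ (d - J.card) * (A J ^ n).trace) + _ = _
    rw [h3, h4]
    ring
  -- reduction
  have hred : ∀ k ≤ N, ((phiMat p M (fun y : K => y) H).charpolyRev *
      ∏ J ∈ odd, ((A J).map T.red).charpolyRev).coeff k =
      (∏ J ∈ even, ((A J).map T.red).charpolyRev).coeff k := by
    intro k hk
    have h1 := heq k hk
    have h2 : PowerSeries.coeff k ((Φ.charpolyRev : PowerSeries O) *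
        ∏ J ∈ odd, ((A J).charpolyRev : PowerSeries O)) =
        (Φ.charpolyRev * ∏ J ∈ odd, (A J).charpolyRev).coeff k := by
      rw [← Polynomial.coeff_coe, Polynomial.coe_mul]
      congr 2
      exact (map_prod Polynomial.coeToPowerSeries.ringHom (fun J => (A J).charpolyRev) odd).symm
    have h3 : PowerSeries.coeff k (∏ J ∈ even, ((A J).charpolyRev : PowerSeries O)) =
        (∏ J ∈ even, (A J).charpolyRev).coeff k := by
      rw [← Polynomial.coeff_coe]
      congr 1
      exact (map_prod Polynomial.coeToPowerSeries.ringHom (fun J => (A J).charpolyRev) even).symm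
    rw [h2, h3] at h1
    have h4 := congrArg T.red h1
    rw [← Polynomial.coeff_map, ← Polynomial.coeff_map, Polynomial.map_mul, Polynomial.map_prod,
      Polynomial.map_prod, ← charpolyRev_map] at h4
    simp only [← charpolyRev_map] at h4
    have h5 : Φ.map T.red = phiMat p M (fun y : K => y) H := by
      ext a b
      simp only [Φ, phiMat, Matrix.map_apply]
      split_ifs with h
      · have h6 : (T.red.comp (aeval (fun i => T.tei ((a.1 : Fin d → K) i)) :
            MvPolynomial (Fin d) ℤ →ₐ[ℤ] O).toRingHom) =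
            (aeval (fun i => ((a.1 : Fin d → K) i)) :
            MvPolynomial (Fin d) ℤ →ₐ[ℤ] K).toRingHom := by
          refine MvPolynomial.ringHom_ext (fun r => ?_) (fun i => ?_)
          · simp
          · simp [T.red_tei]
        exact DFunLike.congr_fun h6 (H a.2 b.2)
      · exact map_zero _
    rw [h5] at h4
    exact h4
  have hA1 : ∀ J : Finset (Fin d), J ≠ ∅ → ((A J).map T.red).charpolyRev = 1 := by
    intro J hJ
    have h0 : (A J).map T.red = 0 := by
      ext a b
      simp only [A, Matrix.map_apply, Matrix.smul_apply, smul_eq_mul, map_mul, map_pow,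
        Matrix.zero_apply]
      have hpK : T.red (p : O) = 0 := by
        rw [map_natCast]
        exact CharP.cast_eq_zero K p
      have hc : J.card ≠ 0 := fun h => hJ (Finset.card_eq_zero.mp h)
      rw [hpK, zero_pow hc, zero_mul]
    rw [h0, charpolyRev]
    simp
  have hA0 : (A ∅).map T.red = (opMat p D ∅ H).map (Int.castRingHom K) := by
    ext a b
    simp [A]
  have hmul : ∀ G : Polynomial K, ((phiMat p M (fun y : K => y) H).charpolyRev * G).coeff k =
      G.coeff k := by
    intro G
    rw [Polynomial.coeff_mul, Finset.sum_eq_single (0, k)]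
    · rw [hΦ 0 (Nat.zero_le _), if_pos rfl, one_mul]
    · rintro ⟨i, j⟩ hij hne
      rw [Finset.HasAntidiagonal.mem_antidiagonal] at hij
      simp only at hij
      have hi : i ≠ 0 := by
        rintro rfl
        apply hne
        simp at hij
        rw [hij]
      rw [hΦ i (by omega), if_neg hi, zero_mul]
    · intro h
      exact absurd (Finset.HasAntidiagonal.mem_antidiagonal.mpr (zero_add k)) h
  have h7 := hred k hk
  rw [hmul] at h7
  by_cases hd : Odd (d - (∅ : Finset (Fin d)).card)
  · have h8 : ∏ J ∈ odd, ((A J).map T.red).charpolyRev = ((A ∅).map T.red).charpolyRev := by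
      refine Finset.prod_eq_single ∅ (fun J _ hJ => hA1 J hJ) ?_
      intro h
      exact absurd (by simp only [odd, even, Finset.mem_filter, Finset.mem_univ, true_and]; exact hd) h
    have h9 : ∏ J ∈ even, ((A J).map T.red).charpolyRev = 1 := by
      refine Finset.prod_eq_one fun J hJ => hA1 J ?_
      rintro rfl
      exact (Finset.mem_filter.mp hJ).2 hd
    rw [h8, h9, hA0] at h7
    rw [h7, Polynomial.coeff_one]
  · have h8 : ∏ J ∈ even, ((A J).map T.red).charpolyRev = ((A ∅).map T.red).charpolyRev := by
      refine Finset.prod_eq_single ∅ (fun J _ hJ => hA1 J hJ) ?_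
      intro h
      exact absurd (by simp only [odd, even, Finset.mem_filter, Finset.mem_univ, true_and]; exact hd) h
    have h9 : ∏ J ∈ odd, ((A J).map T.red).charpolyRev = 1 := by
      refine Finset.prod_eq_one fun J hJ => hA1 J ?_
      rintro rfl
      exact hd (Finset.mem_filter.mp hJ).2
    rw [h8, h9, hA0] at h7
    rw [← h7, Polynomial.coeff_one]

end Pool.Agent.F2TF
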