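import Pool.Agent.Lib.MP_305fdd_al.F2.TF.Stm

set_option autoImplicit false

namespace Pool.Agent.F2TF

open MvPolynomial Matrix

theorem charP_alg (p d : ℕ) [Fact p.Prime] (B : Type) [CommRing B] [Algebra (Pol p d) B]
    [Nontrivial B] : CharP B p := by
  let f : ZMod p →+* B := (algebraMap (Pol p d) B).comp C
  exact charP_of_injective_ringHom f.injective p

/-- [TF c1] -/
theorem p_frobpow : S_frobpow := by
  classical
  intro p d r hp B _ _ b μ hb n
  constructor
  · rcases subsingleton_or_nontrivial B with hB | hB
    · intro j
      exact Subsingleton.elim _ _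
    haveI := charP_alg p d B
    induction n with
    | zero =>
      intro j
      simp [hpow, Matrix.one_apply]
    | succ n ih =>
      intro j
      rw [pow_succ, pow_mul, ih j, sum_pow_char]
      simp only [smul_pow, hpow, Matrix.mul_apply, Matrix.map_apply, expand_zmod]
      have h1 : ∀ i, b i ^ p = ∑ k, frobMat b μ k i • b k := fun i => (hb (b i ^ p)).symm
      simp only [h1, Finset.smul_sum, Finset.sum_smul]
      rw [Finset.sum_comm]
      refine Finset.sum_congr rfl fun k _ => Finset.sum_congr rfl fun i _ => ?_
      rw [smul_smul, mul_comm]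
  · intro i j
    simp only [hpow, Matrix.mul_apply, Matrix.map_apply, Finset.mul_sum]
    rw [Finset.sum_comm]
    refine Finset.sum_congr rfl fun l _ => ?_
    have h1 : μ i (b l ^ p) = ∑ k, μ i (b k) * frobMat b μ k l := by
      conv_lhs => rw [← hb (b l ^ p)]
      rw [map_sum]
      refine Finset.sum_congr rfl fun k _ => ?_
      rw [map_smul, smul_eq_mul, mul_comm]
      rfl
    have h2 : frobMat b μ i l = μ i (b l ^ p) := rfl
    rw [h2, h1, Finset.sum_mul]
    refine Finset.sum_congr rfl fun k _ => ?_
    rw [mul_assoc]

end Pool.Agent.F2TF
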