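import Pool.Agent.Lib.MP_305fdd_al.F2.TF.P.c1

set_option autoImplicit false

namespace Pool.Agent.F2TF

open MvPolynomial Matrix TensorProduct

/-- an element of a finite-dimensional algebra over an algebraically closed field killed by all
points is nilpotent -/
theorem nilp_of_points {K R : Type} [Field K] [IsAlgClosed K] [CommRing R] [Algebra K R]
    [Module.Finite K R] (β : R) (h : ∀ φ : R →ₐ[K] K, φ β = 0) : IsNilpotent β := by
  rw [← mem_nilradical, nilradical_eq_sInf, Ideal.mem_sInf]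
  intro P hP
  haveI : P.IsPrime := hP
  haveI : Module.Finite K (R ⧸ P) := Module.Finite.of_surjective
    (Ideal.Quotient.mkₐ K P).toLinearMap Ideal.Quotient.mk_surjective
  haveI : Algebra.IsIntegral K (R ⧸ P) := Algebra.IsIntegral.of_finite K (R ⧸ P)
  have hbij : Function.Bijective (algebraMap K (R ⧸ P)) :=
    IsAlgClosed.algebraMap_bijective_of_isIntegral
  let e : K ≃ₐ[K] (R ⧸ P) := AlgEquiv.ofBijective (Algebra.ofId K (R ⧸ P)) hbij
  let φ : R →ₐ[K] K := (e.symm : (R ⧸ P) →ₐ[K] K).comp (Ideal.Quotient.mkₐ K P)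
  have h1 := h φ
  have h2 : e.symm (Ideal.Quotient.mk P β) = 0 := h1
  have h3 : Ideal.Quotient.mk P β = 0 := by
    have := congrArg e h2
    rwa [e.apply_symm_apply, map_zero] at this
  exact Ideal.Quotient.eq_zero_iff_mem.mp h3

/-- [TF c2] -/
theorem p_nilfib (h_frobpow : S_frobpow) : S_nilfib := by
  classical
  intro p d r hp B _ _ b μ hb K _ _ _ y a hx
  letI alg : Algebra (Pol p d) K := (aeval y : Pol p d →ₐ[ZMod p] K).toRingHom.toAlgebra
  have halg : ∀ c : Pol p d, algebraMap (Pol p d) K c = aeval y c := fun c => rfl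
  haveI : Module.Finite (Pol p d) B := by
    refine ⟨⟨Finset.univ.image b, ?_⟩⟩
    rw [eq_top_iff]
    rintro x -
    rw [← hb x]
    refine Submodule.sum_mem _ fun j _ => Submodule.smul_mem _ _ (Submodule.subset_span ?_)
    simp
  let β : K ⊗[Pol p d] B := ∑ j, a j ⊗ₜ[Pol p d] b j
  have hnil : IsNilpotent β := by
    apply nilp_of_points (K := K)
    intro φ
    let x : B →+* K := φ.toRingHom.comp
      (Algebra.TensorProduct.includeRight : B →ₐ[Pol p d] K ⊗[Pol p d] B).toRingHom
    have hxb : ∀ c : B, x c = φ (1 ⊗ₜ c) := fun c => rfl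
    have h1 := hx x ?_
    · rw [map_sum, ← h1]
      refine Finset.sum_congr rfl fun j _ => ?_
      rw [hxb]
      have : a j ⊗ₜ[Pol p d] b j = a j • ((1 : K) ⊗ₜ[Pol p d] b j) := by
        rw [smul_tmul', smul_eq_mul, mul_one]
      rw [this, map_smul, smul_eq_mul]
    · intro i
      rw [hxb]
      have h2 : (1 : K) ⊗ₜ[Pol p d] (algebraMap (Pol p d) B (X i)) =
          (y i) • ((1 : K) ⊗ₜ[Pol p d] (1 : B)) := by
        rw [Algebra.algebraMap_eq_smul_one, ← smul_tmul, smul_tmul', Algebra.smul_def, halg,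
          aeval_X, mul_one, smul_eq_mul, mul_one]
      rw [h2, map_smul, ← Algebra.TensorProduct.one_def, map_one, smul_eq_mul, mul_one]
  obtain ⟨N, hN⟩ := hnil
  refine ⟨N + 1, fun n hn l => ?_⟩
  have hβ : β ^ p ^ n = 0 := by
    have h1 : N ≤ p ^ n := by
      have := (Nat.lt_pow_self (n := n) hp.out.one_lt).le
      omega
    obtain ⟨e, he⟩ := Nat.exists_eq_add_of_le h1
    rw [he, pow_add, hN, zero_mul]
  let c : Fin r → K := fun i => ∑ j, (aeval y (hpow p (frobMat b μ) n i j) : K) * a j ^ (p ^ n)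
  have hc : ∑ i, c i ⊗ₜ[Pol p d] b i = (0 : K ⊗[Pol p d] B) := by
    rcases subsingleton_or_nontrivial (K ⊗[Pol p d] B) with hB | hB
    · exact Subsingleton.elim _ _
    haveI : CharP K p := charP_of_injective_algebraMap (algebraMap (ZMod p) K).injective p
    haveI : CharP (K ⊗[Pol p d] B) p :=
      charP_of_injective_algebraMap (algebraMap K (K ⊗[Pol p d] B)).injective p
    rw [← hβ, sum_pow_char_pow]
    have h1 : ∀ j, (a j ⊗ₜ[Pol p d] b j) ^ p ^ n =
        ∑ i, ((aeval y (hpow p (frobMat b μ) n i j) : K) * a j ^ (p ^ n)) ⊗ₜ[Pol p d] b i := by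
      intro j
      rw [Algebra.TensorProduct.tmul_pow, (h_frobpow p d r B b μ hb n).1 j, tmul_sum]
      refine Finset.sum_congr rfl fun i _ => ?_
      rw [← smul_tmul, Algebra.smul_def, halg]
    simp only [h1]
    rw [Finset.sum_comm]
    refine Finset.sum_congr rfl fun i _ => ?_
    rw [← sum_tmul]
  have hE : ∑ i, c i * aeval y (μ l (b i)) = 0 := by
    have h1 := congrArg ((TensorProduct.rid (Pol p d) K).toLinearMap ∘ₗ
      (LinearMap.lTensor K (μ l))) hc
    rw [map_sum, map_zero] at h1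
    rw [← h1]
    refine Finset.sum_congr rfl fun i _ => ?_
    rw [LinearMap.comp_apply, LinearMap.lTensor_tmul, LinearEquiv.coe_coe, TensorProduct.rid_tmul,
      Algebra.smul_def, halg, mul_comm]
  obtain ⟨n', rfl⟩ : ∃ n', n = n' + 1 := ⟨n - 1, by omega⟩
  have hcl : ∑ i, c i * aeval y (μ l (b i)) = c l := by
    simp only [c, Finset.sum_mul]
    rw [Finset.sum_comm]
    refine Finset.sum_congr rfl fun j _ => ?_
    have h2 := (h_frobpow p d r B b μ hb n').2 l j
    rw [← h2, map_sum, Finset.sum_mul]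
    refine Finset.sum_congr rfl fun i _ => ?_
    rw [map_mul]
    ring
  exact hcl.symm.trans hE

end Pool.Agent.F2TF
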