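import Pool.Agent.Lib.MP_305fdd_al.F2.TF.Stm

set_option autoImplicit false

namespace Pool.Agent.F2TF

open MvPolynomial Matrix

/-- [TF c3] -/
theorem p_xfin : S_xfin := by
  classical
  intro p M d hp B K _ _ hfin _ hM
  rcases isEmpty_or_nonempty (XPt p M d B K) with he | ⟨⟨x₀⟩⟩
  · infer_instance
  let ρ : ZMod p →+* K := (x₀.1.comp (algebraMap (Pol p d) B)).comp C
  have hx : ∀ x : XPt p M d B K, x.1.comp (algebraMap (Pol p d) B) =
      eval₂Hom ρ (fun i => x.1 (algebraMap (Pol p d) B (X i))) := by
    intro x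
    refine MvPolynomial.ringHom_ext (fun r => ?_) (fun i => ?_)
    · exact DFunLike.congr_fun (Subsingleton.elim
        ((x.1.comp (algebraMap (Pol p d) B)).comp C)
        ((eval₂Hom ρ (fun i => x.1 (algebraMap (Pol p d) B (X i)))).comp C)) r
    · simp
  obtain ⟨s, hs⟩ := hfin.fg_top
  have hint : ∀ b : B, ∃ P : Polynomial (Pol p d), P.Monic ∧
      Polynomial.eval₂ (algebraMap (Pol p d) B) b P = 0 := fun b =>
    Algebra.IsIntegral.isIntegral (R := Pol p d) b
  choose P hPm hP using hint
  let T : Finset ((Fin d → K) × (s → K)) := (fpts p M d K).biUnion fun z =>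
    {z} ×ˢ Fintype.piFinset fun b : s => ((P b).map (eval₂Hom ρ z)).roots.toFinset
  let f : XPt p M d B K → (Fin d → K) × (s → K) := fun x =>
    (fun i => x.1 (algebraMap (Pol p d) B (X i)), fun b => x.1 b)
  have hfT : ∀ x, f x ∈ T := by
    intro x
    rw [Finset.mem_biUnion]
    refine ⟨fun i => x.1 (algebraMap (Pol p d) B (X i)), (mem_fpts hM _).mpr x.2, ?_⟩
    rw [Finset.mem_product]
    refine ⟨Finset.mem_singleton_self _, ?_⟩
    rw [Fintype.mem_piFinset]
    intro b
    rw [Multiset.mem_toFinset, Polynomial.mem_roots ((hPm b).map _).ne_zero, Polynomial.IsRoot.def,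
      Polynomial.eval_map, ← hx x, ← Polynomial.hom_eval₂, hP, map_zero]
  have hinj : Function.Injective f := by
    intro x x' hxx
    have h1 := (Prod.ext_iff.mp hxx).1
    have h2 := (Prod.ext_iff.mp hxx).2
    have h3 : x.1.comp (algebraMap (Pol p d) B) = x'.1.comp (algebraMap (Pol p d) B) := by
      rw [hx x, hx x']
      congr 1
    apply Subtype.ext
    ext c
    have hc : c ∈ Submodule.span (Pol p d) (s : Set B) := by rw [hs]; trivial
    induction hc using Submodule.span_induction with
    | mem c hc => exact congrFun h2 ⟨c, hc⟩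
    | zero => simp
    | add a b _ _ iha ihb => rw [map_add, map_add, iha, ihb]
    | smul a c _ ih =>
      rw [Algebra.smul_def, map_mul, map_mul, ih]
      congr 1
      exact DFunLike.congr_fun h3 a
  exact Finite.of_injective (fun x => (⟨f x, hfT x⟩ : ↥T)) fun x x' h =>
    hinj (congrArg Subtype.val h)

end Pool.Agent.F2TF
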