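import Pool.Agent.Lib.MP_305fdd_al.F2.TF.P.b5

set_option autoImplicit false

namespace Pool.Agent.F2TF

open MvPolynomial Matrix

/-! ### characteristic polynomials and powers in characteristic `p` -/

theorem charpolyRev_mul_comm {K m n : Type} [CommRing K] [Fintype m] [DecidableEq m] [Fintype n]
    [DecidableEq n] (A : Matrix m n K) (B : Matrix n m K) :
    (A * B).charpolyRev = (B * A).charpolyRev := by
  rw [charpolyRev, charpolyRev, Matrix.map_mul, Matrix.map_mul, ← Matrix.smul_mul,
    det_one_sub_mul_comm, Matrix.mul_smul]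

theorem charpolyRev_pow_char {K m : Type} [Field K] (p : ℕ) [Fact p.Prime] [CharP K p] [Fintype m]
    [DecidableEq m] (A : Matrix m m K) (s : ℕ) :
    Polynomial.expand K (p ^ s) (A ^ (p ^ s)).charpolyRev = A.charpolyRev ^ (p ^ s) := by
  rcases isEmpty_or_nonempty m with hm | hm
  · simp [charpolyRev]
  rw [charpolyRev, charpolyRev, ← det_pow]
  have h1 : (1 - (Polynomial.X : Polynomial K) • A.map Polynomial.C) ^ (p ^ s) =
      1 - ((Polynomial.X : Polynomial K) • A.map Polynomial.C) ^ (p ^ s) := by
    rw [sub_pow_char_pow_of_commute _ _ (Commute.one_left _), one_pow]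
  rw [h1, ← AlgHom.coe_toRingHom, RingHom.map_det]
  congr 1
  rw [map_sub, map_one, smul_pow]
  congr 1
  ext i j
  have h2 : (A.map (Polynomial.C : K →+* Polynomial K)) ^ (p ^ s) =
      (A ^ (p ^ s)).map (Polynomial.C : K →+* Polynomial K) := by
    have := map_pow ((Polynomial.C : K →+* Polynomial K).mapMatrix (m := m)) A (p ^ s)
    exact this.symm
  rw [h2]
  simp [Polynomial.expand_eq_comp_X_pow]

theorem charpolyRev_eq_of_pow {K m n : Type} [Field K] (p : ℕ) [Fact p.Prime] [CharP K p]
    [Fintype m] [DecidableEq m] [Fintype n] [DecidableEq n] (A : Matrix m m K) (B : Matrix n n K)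
    (s : ℕ) (h : (A ^ (p ^ s)).charpolyRev = (B ^ (p ^ s)).charpolyRev) :
    A.charpolyRev = B.charpolyRev := by
  have h1 : A.charpolyRev ^ (p ^ s) = B.charpolyRev ^ (p ^ s) := by
    rw [← charpolyRev_pow_char p A s, ← charpolyRev_pow_char p B s, h]
  have h2 : (A.charpolyRev - B.charpolyRev) ^ (p ^ s) = 0 := by
    rw [sub_pow_char_pow, h1, sub_self]
  exact sub_eq_zero.mp (pow_eq_zero_iff (pow_ne_zero _ (Fact.out : p.Prime).ne_zero) |>.mp h2)

/-- intertwining with nilpotent kernel -/
theorem charpolyRev_intertwine {K m n : Type} [Field K] (p : ℕ) [hp : Fact p.Prime] [CharP K p]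
    [Fintype m] [DecidableEq m] [Fintype n] [DecidableEq n] (Φ : Matrix m m K) (Ψ : Matrix n n K)
    (E : Matrix n m K) (hE : E * Φ = Ψ * E) (hli : LinearIndependent K E.row)
    (hnil : ∀ f : m → K, E *ᵥ f = 0 → ∃ n₀ : ℕ, ∀ n ≥ n₀, (Φ ^ n) *ᵥ f = 0) :
    Φ.charpolyRev = Ψ.charpolyRev := by
  classical
  -- right inverse
  have hsurj : Function.Surjective E.mulVec := by
    have h1 : E.rank = Fintype.card n := hli.rank_matrix
    have h2 : LinearMap.range E.mulVecLin = ⊤ := by
      apply Submodule.eq_top_of_finrank_eq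
      rw [← Matrix.rank, h1]
      simp
    intro v
    have : v ∈ LinearMap.range E.mulVecLin := by rw [h2]; trivial
    obtain ⟨w, hw⟩ := this
    exact ⟨w, hw⟩
  obtain ⟨S, hS⟩ := mulVec_surjective_iff_exists_right_inverse.mp hsurj
  -- the columns of `1 - S * E` are in the kernel
  have hker : E * (1 - S * E) = 0 := by
    rw [Matrix.mul_sub, Matrix.mul_one, ← Matrix.mul_assoc, hS, Matrix.one_mul, sub_self]
  have hcol : ∀ c : m, ∃ n₀ : ℕ, ∀ n ≥ n₀, (Φ ^ n) *ᵥ ((1 - S * E).col c) = 0 := by
    intro c
    apply hnil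
    funext x
    have := congrFun (congrFun hker x) c
    simpa [Matrix.mul_apply, Matrix.mulVec, dotProduct] using this
  choose n₀ hn₀ using hcol
  obtain ⟨s, hs⟩ : ∃ s : ℕ, ∀ c, n₀ c ≤ p ^ s := by
    refine ⟨Finset.univ.sup n₀, fun c => ?_⟩
    exact (Finset.le_sup (f := n₀) (Finset.mem_univ c)).trans (Nat.lt_pow_self hp.out.one_lt).le
  have hzero : Φ ^ (p ^ s) * (1 - S * E) = 0 := by
    ext i c
    have := congrFun (hn₀ c (p ^ s) (hs c)) i
    simpa [Matrix.mul_apply, Matrix.mulVec, dotProduct] using this
  have hT : Φ ^ (p ^ s) = (Φ ^ (p ^ s) * S) * E := by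
    rw [Matrix.mul_sub, Matrix.mul_one, sub_eq_zero] at hzero
    rw [Matrix.mul_assoc]
    exact hzero
  have hpow : ∀ k : ℕ, E * Φ ^ k = Ψ ^ k * E := by
    intro k
    induction k with
    | zero => simp
    | succ k ih =>
      rw [pow_succ, ← Matrix.mul_assoc, ih, Matrix.mul_assoc, hE, ← Matrix.mul_assoc, pow_succ]
  have hET : E * (Φ ^ (p ^ s) * S) = Ψ ^ (p ^ s) := by
    rw [← Matrix.mul_assoc, hpow, Matrix.mul_assoc, hS, Matrix.mul_one]
  apply charpolyRev_eq_of_pow p Φ Ψ s
  rw [hT, charpolyRev_mul_comm, hET]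

/-! ### the matrices of the Frobenius -/

theorem hpow_lift {p d r : ℕ} (H : Matrix (Fin r) (Fin r) (MvPolynomial (Fin d) ℤ))
    (F : Matrix (Fin r) (Fin r) (Pol p d)) (hH : IsLift H F) (n : ℕ) :
    IsLift (hpow p H n) (hpow p F n) := by
  induction n with
  | zero =>
    intro i j
    simp only [hpow, Matrix.one_apply]
    split_ifs <;> simp
  | succ n ih =>
    intro i j
    simp only [hpow, Matrix.mul_apply, Matrix.map_apply, map_sum, map_mul]
    refine Finset.sum_congr rfl fun k _ => ?_
    rw [hH i k, map_expand, ih k j]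

theorem aeval_lift {p d r : ℕ} {K : Type} [Field K] [Algebra (ZMod p) K]
    (H : Matrix (Fin r) (Fin r) (MvPolynomial (Fin d) ℤ))
    (F : Matrix (Fin r) (Fin r) (Pol p d)) (hH : IsLift H F) (y : Fin d → K) (i j : Fin r) :
    aeval y (H i j) = aeval y (F i j) := by
  rw [← hH i j]
  exact (aeval_map_algebraMap (ZMod p) y (H i j)).symm

theorem aeval_frob {p d : ℕ} [Fact p.Prime] {K : Type} [Field K] [Algebra (ZMod p) K] [CharP K p]
    (y : Fin d → K) (a : Pol p d) (n : ℕ) :
    (aeval y a) ^ p ^ n = aeval (fun i => y i ^ p ^ n) a := by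
  have h : (iterateFrobenius K p n).comp (aeval y : Pol p d →ₐ[ZMod p] K).toRingHom =
      (aeval (fun i => y i ^ p ^ n) : Pol p d →ₐ[ZMod p] K).toRingHom := by
    refine MvPolynomial.ringHom_ext (fun r => ?_) (fun i => ?_)
    · exact DFunLike.congr_fun (Subsingleton.elim
        (((iterateFrobenius K p n).comp (aeval y : Pol p d →ₐ[ZMod p] K).toRingHom).comp C)
        ((aeval (fun i => y i ^ p ^ n) : Pol p d →ₐ[ZMod p] K).toRingHom.comp C)) r
    · simp [iterateFrobenius_def]
  have := DFunLike.congr_fun h a
  rw [RingHom.comp_apply, iterateFrobenius_def] at this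
  exact this

theorem hom_eval {p d : ℕ} {B K : Type} [CommRing B] [Algebra (Pol p d) B] [Field K]
    [Algebra (ZMod p) K] (x : B →+* K) (a : Pol p d) :
    x (algebraMap (Pol p d) B a) = aeval (fun i => x (algebraMap (Pol p d) B (X i))) a := by
  have h : x.comp (algebraMap (Pol p d) B) =
      (aeval (fun i => x (algebraMap (Pol p d) B (X i))) : Pol p d →ₐ[ZMod p] K).toRingHom := by
    refine MvPolynomial.ringHom_ext (fun r => ?_) (fun i => ?_)
    · exact DFunLike.congr_fun (Subsingleton.elim
        ((x.comp (algebraMap (Pol p d) B)).comp C)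
        ((aeval (fun i => x (algebraMap (Pol p d) B (X i))) :
          Pol p d →ₐ[ZMod p] K).toRingHom.comp C)) r
    · simp
  exact DFunLike.congr_fun h a

/-- [TF c4] -/
theorem p_phichar (h_nilfib : S_nilfib) : S_phichar := by
  classical
  intro p M d r hp B K _ _ _ _ _ _ _ b μ hb H hH hM
  haveI hchar : CharP K p :=
    charP_of_injective_algebraMap (algebraMap (ZMod p) K).injective p
  let pt : XPt p M d B K → ↥(fpts p M d K) := fun x =>
    ⟨fun i => x.1 (algebraMap (Pol p d) B (X i)), (mem_fpts hM _).mpr x.2⟩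
  let fr : XPt p M d B K → XPt p M d B K := fun x =>
    ⟨(frobenius K p).comp x.1, fun i => by
      have := x.2 i
      simp only [RingHom.comp_apply, frobenius_def]
      rw [← pow_mul, mul_comm, pow_mul, this]⟩
  let E : Matrix (XPt p M d B K) (↥(fpts p M d K) × Fin r) K := fun x c =>
    if c.1 = pt x then x.1 (b c.2) else 0
  have hsm : ∀ (x : XPt p M d B K) (a : Pol p d) (c : B),
      x.1 (a • c) = aeval ((pt x : Fin d → K)) a * x.1 c := by
    intro x a c
    rw [Algebra.smul_def, map_mul, hom_eval]
  have hexp : ∀ (x : XPt p M d B K) (c : B),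
      ∑ j, aeval ((pt x : Fin d → K)) (μ j c) * x.1 (b j) = x.1 c := by
    intro x c
    conv_rhs => rw [← hb c]
    rw [map_sum]
    exact Finset.sum_congr rfl fun j _ => (hsm x _ _).symm
  refine charpolyRev_intertwine p (phiMat p M (fun y : K => y) H) (permMat p M d B K K) E
    ?_ ?_ ?_
  · -- intertwining
    ext x ⟨z, k⟩
    have hL : (E * phiMat p M (fun y : K => y) H) x (z, k) =
        if (z : Fin d → K) = fun i => (pt x : Fin d → K) i ^ p then x.1 (b k) ^ p else 0 := by
      rw [Matrix.mul_apply, Fintype.sum_prod_type, Finset.sum_eq_single (pt x)]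
      · simp only [E, phiMat, if_true]
        split_ifs with h
        · have h1 : x.1 (b k) ^ p = x.1 (b k ^ p) := (map_pow _ _ _).symm
          rw [h1, ← hexp x (b k ^ p)]
          refine Finset.sum_congr rfl fun j _ => ?_
          rw [mul_comm, aeval_lift H (frobMat b μ) hH]
          rfl
        · simp
      · intro y _ hy
        refine Finset.sum_eq_zero fun j _ => ?_
        simp only [E, if_neg hy, zero_mul]
      · intro h
        exact absurd (Finset.mem_univ _) h
    have hR : (permMat p M d B K K * E) x (z, k) =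
        if (z : Fin d → K) = fun i => (pt x : Fin d → K) i ^ p then x.1 (b k) ^ p else 0 := by
      rw [Matrix.mul_apply, Finset.sum_eq_single (fr x)]
      · have h1 : permMat p M d B K K x (fr x) = 1 := by
          rw [permMat, if_pos]
          intro c
          rfl
        rw [h1, one_mul]
        simp only [E]
        by_cases h : (z : Fin d → K) = fun i => (pt x : Fin d → K) i ^ p
        · rw [if_pos h, if_pos]
          · rfl
          · exact Subtype.ext h
        · rw [if_neg h, if_neg]
          intro h2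
          exact h (congrArg Subtype.val h2)
      · intro x' _ hx'
        have h1 : permMat p M d B K K x x' = 0 := by
          rw [permMat, if_neg]
          intro h
          exact hx' (Subtype.ext (RingHom.ext h))
        rw [h1, zero_mul]
      · intro h
        exact absurd (Finset.mem_univ _) h
    rw [hL, hR]
  · -- independence of the rows
    rw [Fintype.linearIndependent_iff]
    intro c hc x₀
    have hrow : ∀ (y : ↥(fpts p M d K)) (j : Fin r),
        ∑ x, c x * (if y = pt x then x.1 (b j) else 0) = 0 := by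
      intro y j
      have := congrFun hc (y, j)
      simpa [E, Matrix.row, Finset.sum_apply, smul_eq_mul] using this
    have hli : LinearIndependent K fun x : XPt p M d B K => ((x.1 : B →* K) : B → K) := by
      have h1 := linearIndependent_monoidHom B K
      refine h1.comp (fun x : XPt p M d B K => (x.1 : B →* K)) ?_
      intro x x' hxx
      apply Subtype.ext
      ext a
      exact DFunLike.congr_fun hxx a
    rw [Fintype.linearIndependent_iff] at hli
    have h2 := hli (fun x => if pt x = pt x₀ then c x else 0) ?_ x₀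
    · simpa using h2
    funext a
    simp only [Finset.sum_apply, Pi.smul_apply, smul_eq_mul, Pi.zero_apply]
    have h3 : ∀ x : XPt p M d B K, (if pt x = pt x₀ then c x else 0) * x.1 a =
        ∑ j, aeval ((pt x₀ : Fin d → K)) (μ j a) * (c x * (if pt x₀ = pt x then x.1 (b j) else 0)) := by
      intro x
      by_cases h4 : pt x = pt x₀
      · rw [if_pos h4, ← hexp x a, Finset.mul_sum]
        refine Finset.sum_congr rfl fun j _ => ?_
        rw [if_pos h4.symm, h4]
        ring
      · rw [if_neg h4, zero_mul]
        symm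
        refine Finset.sum_eq_zero fun j _ => ?_
        rw [if_neg (fun h => h4 h.symm)]
        ring
    have h5 : ∀ x : XPt p M d B K, (if pt x = pt x₀ then c x else 0) *
        ((x.1 : B →* K) : B → K) a = (if pt x = pt x₀ then c x else 0) * x.1 a := fun x => rfl
    simp only [h5, h3]
    rw [Finset.sum_comm]
    refine Finset.sum_eq_zero fun j _ => ?_
    rw [← Finset.mul_sum, hrow, mul_zero]
  · -- nilpotence on the kernel
    intro f hf
    have hfz : ∀ z : ↥(fpts p M d K), ∃ n₀ : ℕ, ∀ n ≥ n₀, ∀ i,
        ∑ j, (aeval (z : Fin d → K) (hpow p (frobMat b μ) n i j) : K) * f (z, j) ^ (p ^ n) = 0 := by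
      intro z
      refine h_nilfib p d r B b μ hb K (z : Fin d → K) (fun j => f (z, j)) ?_
      intro x hx
      have hxM : ∀ i : Fin d, x (algebraMap (Pol p d) B (X i)) ^ (p ^ M) =
          x (algebraMap (Pol p d) B (X i)) := by
        intro i
        rw [hx i]
        exact (mem_fpts hM _).mp z.2 i
      have h1 := congrFun hf ⟨x, hxM⟩
      rw [Matrix.mulVec, dotProduct, Fintype.sum_prod_type, Finset.sum_eq_single z] at h1
      · have h2 : z = pt ⟨x, hxM⟩ := Subtype.ext (funext fun i => (hx i).symm)
        simp only [E, if_pos h2, Pi.zero_apply] at h1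
        rw [← h1]
        exact Finset.sum_congr rfl fun j _ => mul_comm _ _
      · intro y _ hy
        refine Finset.sum_eq_zero fun j _ => ?_
        have h2 : ¬ y = pt ⟨x, hxM⟩ := by
          intro h
          apply hy
          rw [h]
          exact Subtype.ext (funext fun i => hx i)
        simp only [E, if_neg h2, zero_mul]
      · intro h
        exact absurd (Finset.mem_univ _) h
    choose n₀ hn₀ using hfz
    refine ⟨Finset.univ.sup n₀, fun n hn => ?_⟩
    funext ⟨y, j⟩
    have hmem : ∀ k : ℕ, (fun i => (y : Fin d → K) i ^ p ^ k) ∈ fpts p M d K := by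
      intro k
      have := y.2
      rw [mem_fpts hM] at this ⊢
      intro i
      rw [← pow_mul, mul_comm, pow_mul, this i]
    let z : ↥(fpts p M d K) := ⟨fun i => (y : Fin d → K) i ^ p ^ n, hmem n⟩
    have hval : ((phiMat p M (fun y : K => y) H) ^ n *ᵥ f) (y, j) =
        ∑ k, (aeval (y : Fin d → K) (hpow p (frobMat b μ) n j k) : K) * f (z, k) := by
      rw [Matrix.mulVec, dotProduct, Fintype.sum_prod_type, Finset.sum_eq_single z]
      · refine Finset.sum_congr rfl fun k _ => ?_
        have h1 := phiMat_pow (MonoidHom.id K) d r M hM H n y z j k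
        have h2 : phiMat p M (MonoidHom.id K) H = phiMat p M (fun y : K => y) H := rfl
        rw [h2, if_pos rfl] at h1
        rw [h1]
        congr 1
        exact aeval_lift (hpow p H n) (hpow p (frobMat b μ) n) (hpow_lift H _ hH n)
          (y : Fin d → K) j k
      · intro z' _ hz'
        refine Finset.sum_eq_zero fun k _ => ?_
        have h1 := phiMat_pow (MonoidHom.id K) d r M hM H n y z' j k
        have h2 : phiMat p M (MonoidHom.id K) H = phiMat p M (fun y : K => y) H := rfl
        rw [h2, if_neg (fun h => hz' (Subtype.ext h))] at h1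
        rw [h1, zero_mul]
      · intro h
        exact absurd (Finset.mem_univ _) h
    rw [hval]
    have hq : p ^ n ≠ 0 := pow_ne_zero _ hp.out.ne_zero
    apply (pow_eq_zero_iff hq).mp
    rw [sum_pow_char_pow]
    rw [← hn₀ z n ((Finset.le_sup (f := n₀) (Finset.mem_univ z)).trans hn) j]
    refine Finset.sum_congr rfl fun k _ => ?_
    rw [mul_pow, aeval_frob]

end Pool.Agent.F2TF
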