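import Pool.Agent.Lib.MP_305fdd_al.F2.TF.Stm

/-! MP_305fdd_al, piece [TF c5] -/

set_option autoImplicit false

namespace Pool.Agent.F2TF

theorem p_permrev_pow (Y : Type) [Fintype Y] [DecidableEq Y] (π : Y → Y) (k : ℕ) :
    (Matrix.of fun x x' : Y => if x' = π x then (1 : ℤ) else 0) ^ k =
      Matrix.of fun x x' : Y => if x' = π^[k] x then (1 : ℤ) else 0 := by
  induction k with
  | zero =>
    rw [pow_zero]
    ext x x'
    rw [Matrix.one_apply, Matrix.of_apply, Function.iterate_zero, id]
    by_cases h : x = x'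
    · rw [if_pos h, if_pos h.symm]
    · rw [if_neg h, if_neg (fun h' => h h'.symm)]
  | succ k ih =>
    rw [pow_succ', ih]
    ext x x'
    rw [Matrix.mul_apply, Finset.sum_eq_single (π x)]
    · rw [Matrix.of_apply, Matrix.of_apply, Matrix.of_apply, if_pos rfl, one_mul,
        Function.iterate_succ_apply]
    · intro y _ hy
      rw [Matrix.of_apply, if_neg hy, zero_mul]
    · intro h
      exact absurd (Finset.mem_univ _) h

theorem p_permrev (h_ldchar : S_ldchar) (h_ld : S_ld) : S_permrev := by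
  intro Y _ _ π N c hc
  set A : Matrix Y Y ℤ := Matrix.of fun x x' : Y => if x' = π x then (1 : ℤ) else 0 with hA
  have h1 := h_ldchar ℤ Y A
  have h2 := h_ldchar ℤ (Fin 1) (Matrix.of fun _ _ => c)
  have htr : ∀ k, ((Matrix.of fun _ _ => c : Matrix (Fin 1) (Fin 1) ℤ) ^ k).trace = c ^ k := by
    intro k
    rw [Matrix.trace_fin_one]
    induction k with
    | zero => rw [pow_zero, pow_zero, Matrix.one_apply_eq]
    | succ k ih =>
      rw [pow_succ, Matrix.mul_apply, Fin.sum_univ_one, ih, Matrix.of_apply, pow_succ]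
  have htr' : ∀ k, 1 ≤ k → k ≤ N → (A ^ k).trace = c ^ k := by
    intro k hk1 hk2
    rw [← hc k hk1 hk2, hA, p_permrev_pow, Matrix.trace]
    simp only [Matrix.diag_apply, Matrix.of_apply]
    rw [Finset.sum_boole, Nat.card_eq_fintype_card, Fintype.card_subtype]
    congr 2
    ext x
    simp only [Finset.mem_filter, Finset.mem_univ, true_and]
    exact eq_comm
  have h3 := h_ld.2 ℤ _ _ _ _ N h1 h2 (fun k hk1 hk2 => by rw [htr' k hk1 hk2, htr k])
  intro k hk
  have h4 := h3 k hk
  rw [Polynomial.coeff_coe, Polynomial.coeff_coe] at h4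
  have h5 : (Matrix.of fun _ _ => c : Matrix (Fin 1) (Fin 1) ℤ).charpolyRev =
      1 - Polynomial.C c * Polynomial.X := by
    rw [Matrix.charpolyRev, Matrix.det_fin_one]
    simp [Matrix.sub_apply, mul_comm]
  rw [h5] at h4
  exact h4

end Pool.Agent.F2TF
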