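import Pool.Agent.Lib.MP_305fdd_al.F2.TF.Stm

/-! MP_305fdd_al, piece [TF d1] -/

set_option autoImplicit false

namespace Pool.Agent.F2TF

theorem p_nilp : S_nilp := by
  intro K _ n _ _ A hA
  have hdeg : A.charpoly.natDegree = Fintype.card n := A.charpoly_natDegree_eq_dim
  have hX : A.charpoly = Polynomial.X ^ Fintype.card n := by
    ext i
    rw [Polynomial.coeff_X_pow]
    by_cases hi : i ≤ Fintype.card n
    · have h1 := hA (Fintype.card n - i) (Nat.sub_le _ _)
      rw [← A.reverse_charpoly, Polynomial.coeff_reverse, hdeg,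
        Polynomial.revAt_le (Nat.sub_le _ _), Nat.sub_sub_self hi] at h1
      rw [h1]
      by_cases hi2 : i = Fintype.card n
      · rw [if_pos hi2, if_pos (by omega)]
      · rw [if_neg hi2, if_neg (by omega)]
    · rw [Polynomial.coeff_eq_zero_of_natDegree_lt (by omega), if_neg (by omega)]
  refine ⟨Fintype.card n, ?_⟩
  have h2 := A.aeval_self_charpoly
  rw [hX, map_pow, Polynomial.aeval_X] at h2
  exact h2

end Pool.Agent.F2TF
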