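import Pool.Agent.Lib.MP_305fdd_al.F2.TF.Stm

/-! MP_305fdd_al, piece [TF d2] -/

set_option autoImplicit false

namespace Pool.Agent.F2TF

theorem p_witt_charZero (p : ℕ) [hp : Fact p.Prime] (K : Type) [Field K] [CharP K p] :
    CharZero (WittVector p K) := by
  refine charZero_of_inj_zero fun n hn => ?_
  by_contra hn0
  obtain ⟨e, u, hu, rfl⟩ := Nat.exists_eq_pow_mul_and_not_dvd hn0 p hp.out.ne_one
  push_cast at hn
  rcases mul_eq_zero.1 hn with h | h
  · exact pow_ne_zero e (WittVector.p_nonzero p K) h
  · have h1 := congrArg (WittVector.constantCoeff : WittVector p K →+* K) h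
    rw [map_natCast, map_zero] at h1
    exact hu ((CharP.cast_eq_zero_iff K p u).1 h1)

theorem p_witt : S_witt := by
  intro p hp K _ _
  refine ⟨WittVector p K, inferInstance, inferInstance, p_witt_charZero p K, ⟨?_⟩⟩
  exact
    { tei := WittVector.teichmuller p
      red := WittVector.constantCoeff
      red_tei := fun y => WittVector.teichmuller_coeff_zero p y
      tei_zero := WittVector.teichmuller_zero p }

end Pool.Agent.F2TF
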