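import Pool.Agent.Lib.MP_305fdd_al.F2.TF.Stm

set_option autoImplicit false

namespace Pool.Agent.F2TF

open MvPolynomial Matrix

section

variable {p d r : ℕ} [hp : Fact p.Prime]

private theorem p_cartnil_smul_le (s w : Fin d →₀ ℕ) :
    p • s ≤ p • w + cst (p - 1) ↔ s ≤ w := by
  have hp0 : 0 < p := hp.out.pos
  constructor
  · intro h i
    have h1 := h i
    simp only [Finsupp.smul_apply, Finsupp.add_apply, cst_apply, smul_eq_mul] at h1
    by_contra hlt
    push Not at hlt
    have h2 : p * (w i + 1) ≤ p * s i := Nat.mul_le_mul_left p hlt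
    rw [mul_add, mul_one] at h2
    omega
  · intro h i
    have h1 := h i
    simp only [Finsupp.smul_apply, Finsupp.add_apply, cst_apply, smul_eq_mul]
    exact (Nat.mul_le_mul_left p h1).trans (Nat.le_add_right _ _)

private theorem p_cartnil_psi_pow (a c : Pol p d) : psi (a ^ p * c) = a * psi c := by
  rw [← expand_zmod]
  induction a using MvPolynomial.induction_on' with
  | monomial s x =>
    ext w
    rw [coeff_psi, expand_monomial, coeff_monomial_mul', coeff_monomial_mul']
    simp only [p_cartnil_smul_le]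
    split_ifs with h
    · rw [coeff_psi]
      congr 2
      ext i
      simp only [Finsupp.coe_tsub, Finsupp.coe_add, Pi.sub_apply, Pi.add_apply,
        Finsupp.smul_apply, cst_apply, smul_eq_mul]
      have h1 := Nat.mul_le_mul_left p (h i)
      rw [Nat.mul_sub]
      omega
    · rfl
  | add a a' h1 h2 =>
    rw [map_add, add_mul, map_add, h1, h2, add_mul]

variable (p d) in
private theorem p_cartnil_p_zero (B : Type) [CommRing B] [Algebra (Pol p d) B] :
    (p : B) = 0 := by
  have h : ((p : Pol p d)) = 0 := by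
    have h1 : (C ((p : ℕ) : ZMod p) : Pol p d) = 0 := by simp
    rw [← h1, map_natCast]
  have := congrArg (algebraMap (Pol p d) B) h
  rwa [map_natCast, map_zero] at this

variable (d) in
private theorem p_cartnil_add_pow {B : Type} [CommRing B] [Algebra (Pol p d) B] (x y : B) :
    (x + y) ^ p = x ^ p + y ^ p := by
  obtain ⟨z, hz⟩ := exists_add_pow_prime_eq hp.out x y
  rw [hz, p_cartnil_p_zero p d B]
  ring

variable {B : Type} [CommRing B] [Algebra (Pol p d) B]

/-- `cart` of a linear form is a linear form -/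
private noncomputable def p_cartnil_L (l : B →ₗ[Pol p d] Pol p d) : B →ₗ[Pol p d] Pol p d where
  toFun := cart l
  map_add' x y := by
    simp only [cart]
    rw [p_cartnil_add_pow d x y, map_add, map_add]
  map_smul' a x := by
    simp only [cart, RingHom.id_apply, smul_eq_mul]
    rw [smul_pow, map_smul, smul_eq_mul, p_cartnil_psi_pow]

private theorem p_cartnil_L_iter (l : B →ₗ[Pol p d] Pol p d) (N : ℕ) :
    (cart^[N] (l : B → Pol p d)) = ((p_cartnil_L^[N] l : B →ₗ[Pol p d] Pol p d) : B → Pol p d) := by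
  induction N with
  | zero => rfl
  | succ N ih =>
    rw [Function.iterate_succ_apply', Function.iterate_succ_apply', ih]
    rfl

/-- degrees `+ 1 ≤ D` -/
private def p_cartnil_Dg (D : ℕ) (f : Pol p d) : Prop :=
  ∀ m, coeff m f ≠ 0 → ∀ i, m i + 1 ≤ D

open Classical in
private theorem p_cartnil_expand {D : ℕ} {f : Pol p d} (hf : p_cartnil_Dg D f) :
    f = ∑ v : Idx d D ∅, monomial (ex v - cst 1) (coeff (ex v - cst 1) f) := by
  ext m
  rw [coeff_sum]
  simp only [coeff_monomial]
  by_cases hm : coeff m f = 0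
  · rw [hm]
    symm
    apply Finset.sum_eq_zero
    intro v _
    split_ifs with h
    · rw [h, hm]
    · rfl
  · have hmD := hf m hm
    let v : Idx d D ∅ := ⟨fun i => ⟨m i + 1, Nat.lt_succ_of_le (hmD i)⟩, by
      intro i _ h
      simpa using congrArg Fin.val h⟩
    have hv : ex v - cst 1 = m := by
      ext i
      simp [v]
    rw [Finset.sum_eq_single v]
    · rw [if_pos hv, hv]
    · intro w _ hw
      rw [if_neg]
      intro h
      apply hw
      apply Subtype.ext
      funext i
      apply Fin.ext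
      have h1 := DFunLike.congr_fun h i
      have h2 : w.1 i ≠ 0 := w.2 i (by simp)
      have h3 : (w.1 i : ℕ) ≠ 0 := fun h => h2 (Fin.ext h)
      simp only [Finsupp.coe_tsub, Pi.sub_apply, ex_apply, cst_apply] at h1
      simp only [v]
      omega
    · intro h
      exact absurd (Finset.mem_univ _) h

private theorem p_cartnil_pos {D : ℕ} (v : Idx d D ∅) (i : Fin d) : 1 ≤ (v.1 i : ℕ) := by
  have h2 : v.1 i ≠ 0 := v.2 i (by simp)
  have h3 : (v.1 i : ℕ) ≠ 0 := fun h => h2 (Fin.ext h)
  omega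

private theorem p_cartnil_le_iff {D : ℕ} (v w : Idx d D ∅) :
    ex v - cst 1 ≤ p • (ex w - cst 1) + cst (p - 1) ↔ ex v ≤ p • ex w := by
  have hp0 : 0 < p := hp.out.pos
  refine forall_congr' fun i => ?_
  have hv := p_cartnil_pos v i
  have hw := p_cartnil_pos w i
  simp only [Finsupp.coe_tsub, Finsupp.coe_add, Pi.sub_apply, Pi.add_apply,
    Finsupp.smul_apply, cst_apply, smul_eq_mul, ex_apply, Nat.mul_sub, mul_one]
  have h1 : p ≤ p * (w.1 i : ℕ) := Nat.le_mul_of_pos_right p hw
  omega

private theorem p_cartnil_sub_eq {D : ℕ} (v w : Idx d D ∅) (h : ex v ≤ p • ex w) :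
    p • (ex w - cst 1) + cst (p - 1) - (ex v - cst 1) = p • ex w - ex v := by
  have hp0 : 0 < p := hp.out.pos
  ext i
  have hv := p_cartnil_pos v i
  have hw := p_cartnil_pos w i
  have h2 := h i
  simp only [Finsupp.coe_tsub, Finsupp.coe_add, Pi.sub_apply, Pi.add_apply,
    Finsupp.smul_apply, cst_apply, smul_eq_mul, ex_apply, Nat.mul_sub, mul_one] at h2 ⊢
  have h1 : p ≤ p * (w.1 i : ℕ) := Nat.le_mul_of_pos_right p hw
  omega

/-- the row of coefficients -/
private noncomputable def p_cartnil_row (D : ℕ) (b : Fin r → B) (l : B →ₗ[Pol p d] Pol p d) :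
    Idx d D ∅ × Fin r → ZMod p := fun a => coeff (ex a.1 - cst 1) (l (b a.2))

private theorem p_cartnil_L_apply {b : Fin r → B} {μ : Fin r → (B →ₗ[Pol p d] Pol p d)}
    (hb : DualBasis b μ) (l : B →ₗ[Pol p d] Pol p d) (j : Fin r) :
    p_cartnil_L l (b j) = psi (∑ i, l (b i) * frobMat b μ i j) := by
  change psi (l (b j ^ p)) = _
  congr 1
  conv_lhs => rw [← hb (b j ^ p)]
  rw [map_sum]
  refine Finset.sum_congr rfl fun i _ => ?_
  rw [map_smul, smul_eq_mul, mul_comm]
  rfl

private theorem p_cartnil_deg {b : Fin r → B} {μ : Fin r → (B →ₗ[Pol p d] Pol p d)}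
    (hb : DualBasis b μ) (l : B →ₗ[Pol p d] Pol p d) (D : ℕ)
    (hF : ∀ i j m, coeff m (frobMat b μ i j) ≠ 0 → ∀ k, m k ≤ (p - 1) * D)
    (hl : ∀ j, p_cartnil_Dg D (l (b j))) (j : Fin r) :
    p_cartnil_Dg D (p_cartnil_L l (b j)) := by
  classical
  have hp0 : 0 < p := hp.out.pos
  intro m hm k
  rw [p_cartnil_L_apply hb, coeff_psi, coeff_sum] at hm
  obtain ⟨i, _, hi⟩ := Finset.exists_ne_zero_of_sum_ne_zero hm
  rw [coeff_mul] at hi
  obtain ⟨x, hx, hx2⟩ := Finset.exists_ne_zero_of_sum_ne_zero hi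
  rw [Finset.HasAntidiagonal.mem_antidiagonal] at hx
  have h1 := hl i x.1 (left_ne_zero_of_mul hx2) k
  have h2 := hF i j x.2 (right_ne_zero_of_mul hx2) k
  have h3 := DFunLike.congr_fun hx k
  simp only [Finsupp.coe_add, Pi.add_apply, Finsupp.smul_apply, cst_apply, smul_eq_mul] at h3
  obtain ⟨q, hq⟩ : ∃ q, p = q + 1 := ⟨p - 1, by omega⟩
  subst hq
  simp only [Nat.add_sub_cancel] at h2 h3
  by_contra hlt
  push Not at hlt
  have h4 : (q + 1) * D ≤ (q + 1) * m k := Nat.mul_le_mul_left _ (by omega)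
  rw [add_mul q 1 D] at h4
  omega

private theorem p_cartnil_row_L {b : Fin r → B} {μ : Fin r → (B →ₗ[Pol p d] Pol p d)}
    (hb : DualBasis b μ) (l : B →ₗ[Pol p d] Pol p d) (D : ℕ)
    (hl : ∀ j, p_cartnil_Dg D (l (b j))) :
    p_cartnil_row D b (p_cartnil_L l) = p_cartnil_row D b l ᵥ* opMat p D ∅ (frobMat b μ) := by
  classical
  funext a
  obtain ⟨w, j⟩ := a
  rw [vecMul, dotProduct, Fintype.sum_prod_type_right]
  simp only [p_cartnil_row]
  rw [p_cartnil_L_apply hb, coeff_psi, coeff_sum]
  refine Finset.sum_congr rfl fun i _ => ?_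
  conv_lhs => rw [p_cartnil_expand (hl i)]
  rw [Finset.sum_mul, coeff_sum]
  refine Finset.sum_congr rfl fun v _ => ?_
  rw [coeff_monomial_mul']
  simp only [opMat, p_cartnil_le_iff]
  split_ifs with h
  · rw [p_cartnil_sub_eq v w h]
  · rw [mul_zero]

theorem p_cartnil : S_cartnil := by
  classical
  intro p d r _ B _ _ b μ hb H hH K _ _ D₀ hD₀ hnil l
  -- a common bound for the degrees
  obtain ⟨D, hD, hlD⟩ : ∃ D, D₀ ≤ D ∧ ∀ j, p_cartnil_Dg D (l (b j)) := by
    refine ⟨D₀ + (∑ j, (l (b j)).totalDegree + 1), Nat.le_add_right _ _, ?_⟩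
    intro j m hm i
    have h1 : m i ≤ (l (b j)).totalDegree :=
      (monomial_le_degreeOf i (mem_support_iff.2 hm)).trans (degreeOf_le_totalDegree _ _)
    have h2 : (l (b j)).totalDegree ≤ ∑ j, (l (b j)).totalDegree :=
      Finset.single_le_sum (f := fun j => (l (b j)).totalDegree) (fun _ _ => Nat.zero_le _)
        (Finset.mem_univ j)
    omega
  have hF : ∀ i j m, coeff m (frobMat b μ i j) ≠ 0 → ∀ k, m k ≤ (p - 1) * D := by
    intro i j m hm k
    rw [← hH i j, coeff_map] at hm
    have h1 : coeff m (H i j) ≠ 0 := by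
      intro h
      rw [h, map_zero] at hm
      exact hm rfl
    exact ((monomial_le_degreeOf k (mem_support_iff.2 h1)).trans (hD₀ k i j)).trans
      (Nat.mul_le_mul_left _ hD)
  -- the matrix over `ZMod p` is nilpotent
  have hmat : (opMat p D ∅ H).map (Int.castRingHom K) =
      (opMat p D ∅ (frobMat b μ)).map (ZMod.castHom (dvd_refl p) K) := by
    ext x y
    simp only [Matrix.map_apply, opMat]
    split_ifs with h
    · rw [← hH, coeff_map]
      have := RingHom.congr_fun (RingHom.ext_int (Int.castRingHom K)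
        ((ZMod.castHom (dvd_refl p) K).comp (Int.castRingHom (ZMod p))))
        (coeff (p • ex y.1 - ex x.1) (H x.2 y.2))
      exact this
    · rw [map_zero, map_zero]
  obtain ⟨N, hN⟩ : IsNilpotent (opMat p D ∅ (frobMat b μ)) := by
    obtain ⟨N, hN⟩ := hnil D hD
    refine ⟨N, ?_⟩
    rw [hmat, ← Matrix.map_pow] at hN
    ext x y
    have := congrFun (congrFun hN x) y
    simp only [Matrix.map_apply, Matrix.zero_apply] at this ⊢
    exact (ZMod.castHom (dvd_refl p) K).injective (by rw [this, map_zero])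
  refine ⟨N, ?_⟩
  rw [p_cartnil_L_iter]
  have key : ∀ n, (∀ j, p_cartnil_Dg D ((p_cartnil_L^[n] l) (b j))) ∧
      p_cartnil_row D b (p_cartnil_L^[n] l) =
        p_cartnil_row D b l ᵥ* opMat p D ∅ (frobMat b μ) ^ n := by
    intro n
    induction n with
    | zero =>
      refine ⟨hlD, ?_⟩
      rw [pow_zero, vecMul_one]
      rfl
    | succ n ih =>
      rw [Function.iterate_succ_apply']
      refine ⟨p_cartnil_deg hb _ D hF ih.1, ?_⟩
      rw [p_cartnil_row_L hb _ D ih.1, ih.2, vecMul_vecMul, pow_succ]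
  have hrow : p_cartnil_row D b (p_cartnil_L^[N] l) = 0 := by
    rw [(key N).2, hN, vecMul_zero]
  have hzero : ∀ j, (p_cartnil_L^[N] l) (b j) = 0 := by
    intro j
    rw [p_cartnil_expand ((key N).1 j)]
    refine Finset.sum_eq_zero fun v _ => ?_
    have : coeff (ex v - cst 1) ((p_cartnil_L^[N] l) (b j)) = 0 := congrFun hrow (v, j)
    rw [this, map_zero]
  intro c
  rw [← hb c, map_sum]
  refine Finset.sum_eq_zero fun j _ => ?_
  rw [map_smul, hzero, smul_zero]

end

end Pool.Agent.F2TF
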