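import Pool.Agent.Lib.MP_305fdd_al.F2.TF.Stm

set_option autoImplicit false

namespace Pool.Agent.F2TF

open MvPolynomial Matrix
open Pool.Agent.CC (IsTR)

theorem exists_dualBasis (p m : ℕ) (B : Type) [CommRing B] [Algebra (Pol p m) B]
    [Module.Finite (Pol p m) B] [Module.Projective (Pol p m) B] :
    ∃ (r : ℕ) (b : Fin r → B) (μ : Fin r → (B →ₗ[Pol p m] Pol p m)), DualBasis b μ := by
  obtain ⟨r, f, hf⟩ := Module.Finite.exists_fin' (Pol p m) B
  obtain ⟨g, hg⟩ := Module.projective_lifting_property f (LinearMap.id : B →ₗ[Pol p m] B) hf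
  refine ⟨r, fun j => f (Pi.single j 1), fun j => (LinearMap.proj j).comp g, fun x => ?_⟩
  have h1 : f (g x) = x := DFunLike.congr_fun hg x
  conv_rhs => rw [← h1, LinearMap.pi_apply_eq_sum_univ f (g x)]
  refine Finset.sum_congr rfl fun j _ => ?_
  have h2 : (fun k => if j = k then (1 : Pol p m) else 0) = Pi.single j 1 := by
    funext k
    rw [Pi.single_apply]
    simp only [eq_comm]
  rw [h2]
  rfl

theorem exists_lift (p m r : ℕ) (F : Matrix (Fin r) (Fin r) (Pol p m)) :
    ∃ H : Matrix (Fin r) (Fin r) (MvPolynomial (Fin m) ℤ), IsLift H F := by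
  have hs : Function.Surjective (MvPolynomial.map (Int.castRingHom (ZMod p)) :
      MvPolynomial (Fin m) ℤ → MvPolynomial (Fin m) (ZMod p)) :=
    MvPolynomial.map_surjective _ (ZMod.intCast_surjective)
  choose h hh using fun (i j : Fin r) => hs (F i j)
  exact ⟨fun i j => h i j, fun i j => hh i j⟩

theorem exists_degLe (m r : ℕ) (H : Matrix (Fin r) (Fin r) (MvPolynomial (Fin m) ℤ)) :
    ∃ D : ℕ, DegLe D H := by
  refine ⟨∑ i, ∑ j, ∑ k, degreeOf i (H j k), fun i j k => ?_⟩
  calc degreeOf i (H j k) ≤ ∑ k, degreeOf i (H j k) :=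
        Finset.single_le_sum (f := fun k => degreeOf i (H j k)) (fun _ _ => Nat.zero_le _)
          (Finset.mem_univ k)
    _ ≤ ∑ j, ∑ k, degreeOf i (H j k) :=
        Finset.single_le_sum (f := fun j => ∑ k, degreeOf i (H j k)) (fun _ _ => Nat.zero_le _)
          (Finset.mem_univ j)
    _ ≤ _ := Finset.single_le_sum (f := fun i => ∑ j, ∑ k, degreeOf i (H j k))
          (fun _ _ => Nat.zero_le _) (Finset.mem_univ i)

/-- [TF d4] -/
theorem p_thmA (h_dim : S_dim) (h_noether : S_noether) (h_proj : S_proj) (h_phione : S_phione)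
    (h_modp : S_modp) (h_nilp : S_nilp) (h_witt : S_witt) (h_cartnil : S_cartnil) : S_thmA := by
  classical
  intro p m hp B _ _ ev hB hm x
  haveI hfg : Algebra.FiniteType (ZMod p) B := hB.fg
  haveI hnt : Nontrivial B := by
    -- a maximal ideal of `Pol p m` of finite index
    have hI : Finite (Pol p m ⧸ RingHom.ker (aeval (fun _ => 0) : Pol p m →ₐ[ZMod p] ZMod p)) := by
      have h1 := (RingHom.kerLift_injective
        ((aeval (fun _ => 0) : Pol p m →ₐ[ZMod p] ZMod p) : Pol p m →+* ZMod p))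
      haveI : NeZero p := ⟨hp.out.ne_zero⟩
      exact Finite.of_injective _ h1
    have hne : RingHom.ker (aeval (fun _ => 0) : Pol p m →ₐ[ZMod p] ZMod p) ≠ ⊤ :=
      RingHom.ker_ne_top _
    haveI : Nontrivial (Pol p m ⧸ RingHom.ker (aeval (fun _ => 0) :
        Pol p m →ₐ[ZMod p] ZMod p)) := Ideal.Quotient.nontrivial_iff.mpr hne
    exact (ev ⟨_, hI⟩).toRingHom.domain_nontrivial
  obtain ⟨d, g, hginj, hgfin⟩ := exists_finite_inj_algHom_of_fg (ZMod p) B
  obtain rfl : d = m := h_dim p m B ev hB d g hginj hgfin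
  let s : Fin d → B := fun i => g (X i)
  have hgs : g = aeval s := by
    apply MvPolynomial.algHom_ext
    intro i
    simp [s]
  rw [hgs] at hgfin
  obtain ⟨m₀, hm₀⟩ := h_noether (ZMod p) B d s x hgfin
  refine ⟨fun i => s i ^ m₀, ?_⟩
  have hfun : (fun i => x i + (s i ^ m₀) ^ p) = fun i => x i + s i ^ (m₀ * p) := by
    funext i
    rw [pow_mul]
  rw [hfun]
  have hιfin := hm₀ (m₀ * p) (Nat.le_mul_of_pos_right _ hp.out.pos)
  refine ⟨hιfin, ?_⟩
  intro l hl
  letI : Algebra (Pol p d) B :=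
    (aeval (fun i => x i + s i ^ (m₀ * p)) : Pol p d →ₐ[ZMod p] B).toRingHom.toAlgebra
  haveI : Module.Finite (Pol p d) B := hιfin
  haveI : Module.Projective (Pol p d) B := h_proj p d B ev hB
  obtain ⟨r, b, μ, hb⟩ := exists_dualBasis p d B
  obtain ⟨H, hH⟩ := exists_lift p d r (frobMat b μ)
  obtain ⟨D₀, hD₀⟩ := exists_degLe d r H
  have hdeg : ∀ D ≥ D₀, DegLe ((p - 1) * D) H := by
    intro D hD i j k
    refine (hD₀ i j k).trans (hD.le.trans ?_)
    exact Nat.le_mul_of_pos_left _ (by have := hp.out.two_le; omega)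
  let K := AlgebraicClosure (ZMod p)
  haveI : CharP K p := charP_of_injective_algebraMap (algebraMap (ZMod p) K).injective p
  obtain ⟨O, _, hdom, hchar, ⟨T⟩⟩ := h_witt p K
  have hnil : ∀ D ≥ D₀, IsNilpotent ((opMat p D ∅ H).map (Int.castRingHom K)) := by
    intro D hD
    apply h_nilp
    set N := Fintype.card (Idx d D ∅ × Fin r) with hN
    have hdiv : ∀ n, 1 ≤ n → n ≤ N → n ∣ N.factorial := fun n h1 h2 =>
      Nat.dvd_factorial (by omega) h2
    exact h_modp p K O T d r D N.factorial N H (hdeg D hD) (Nat.factorial_ne_zero _) hdiv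
      (h_phione p d B ev hB hm r b μ hb H hH K N.factorial N (Nat.factorial_ne_zero _) hdiv)
  let l' : B →ₗ[Pol p d] Pol p d :=
    { toFun := l
      map_add' := l.map_add
      map_smul' := fun a c => hl a c }
  exact h_cartnil p d r B b μ hb H hH K D₀ (hdeg D₀ le_rfl) hnil l'

end Pool.Agent.F2TF
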