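import Pool.Agent.Lib.MP_305fdd_al.F2.TF.Stm

set_option autoImplicit false

namespace Pool.Agent.F2TF

open MvPolynomial Matrix

/-- [TF b4] -/
theorem p_ptsum (h_teisum : S_teisum) : S_ptsum := by
  classical
  intro p hp K O _ _ _ _ _ T d D n G hn hG
  have hQ : 1 < p ^ n := Nat.one_lt_pow hn hp.out.one_lt
  -- left side
  have hL : ∑ y ∈ fpts p n d K, aeval (fun i => T.tei (y i)) G =
      ∑ u ∈ G.support, ((coeff u G : ℤ) : O) * ∏ i, ∑ y ∈ fset p n K, T.tei y ^ (u i) := by
    simp only [aeval_def, eval₂_eq']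
    rw [Finset.sum_comm]
    refine Finset.sum_congr rfl fun u _ => ?_
    rw [← Finset.mul_sum]
    congr 1
    rw [Finset.prod_univ_sum]
    rfl
  let xw : (Fin d → Fin (D + 1)) → (Fin d →₀ ℕ) := fun w =>
    Finsupp.equivFunOnFinite.symm fun i => (w i : ℕ)
  let ind : (Fin d → Fin (D + 1)) → Fin d → O := fun w i => if w i ≠ 0 then 1 else 0
  have hxw : ∀ w i, xw w i = (w i : ℕ) := fun w i => rfl
  have hL2 : ∑ u ∈ G.support, ((coeff u G : ℤ) : O) * ∏ i, ∑ y ∈ fset p n K, T.tei y ^ (u i) =
      ∑ w : Fin d → Fin (D + 1), ((coeff ((p ^ n - 1) • xw w) G : ℤ) : O) *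
        ∏ i, ((p : O) ^ n + -ind w i) := by
    symm
    have hval : ∀ w : Fin d → Fin (D + 1), ∏ i, ((p : O) ^ n + -ind w i) =
        ∏ i, ∑ y ∈ fset p n K, T.tei y ^ (((p ^ n - 1) • xw w) i) := by
      intro w
      refine Finset.prod_congr rfl fun i _ => ?_
      rw [h_teisum p K O T n _ hn]
      simp only [Finsupp.smul_apply, smul_eq_mul, hxw, dvd_mul_right, if_true, mul_eq_zero]
      by_cases hw : w i = 0
      · simp [ind, hw]
      · have h1 : ¬ (p ^ n - 1 = 0 ∨ (w i : ℕ) = 0) := by
          rintro (h | h)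
          · omega
          · exact hw (Fin.ext (by simpa using h))
        simp only [ind, hw, ne_eq, not_false_eq_true, if_true, if_neg h1]
        ring
    refine Finset.sum_bij_ne_zero (fun w _ _ => (p ^ n - 1) • xw w) ?_ ?_ ?_ ?_
    · intro w _ hw
      rw [mem_support_iff]
      intro h
      rw [h] at hw
      simp at hw
    · intro w _ _ w' _ _ h
      funext i
      apply Fin.ext
      have h1 := DFunLike.congr_fun h i
      simp only [Finsupp.smul_apply, smul_eq_mul, hxw] at h1
      exact Nat.eq_of_mul_eq_mul_left (by omega) h1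
    · intro u hu hne
      have hdvd : ∀ i, p ^ n - 1 ∣ u i := by
        intro i
        by_contra hnd
        apply hne
        have : ∏ i, ∑ y ∈ fset p n K, T.tei y ^ (u i) = 0 :=
          Finset.prod_eq_zero (Finset.mem_univ i) (by rw [h_teisum p K O T n _ hn, if_neg hnd])
        rw [this, mul_zero]
      have hlt : ∀ i, u i / (p ^ n - 1) < D + 1 := by
        intro i
        have h1 : u i ≤ (p ^ n - 1) * D := (monomial_le_degreeOf i hu).trans (hG i)
        exact Nat.lt_succ_of_le (Nat.div_le_of_le_mul h1)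
      have heq : (p ^ n - 1) • xw (fun i => ⟨u i / (p ^ n - 1), hlt i⟩) = u := by
        ext i
        simp only [Finsupp.smul_apply, smul_eq_mul, hxw]
        exact Nat.mul_div_cancel' (hdvd i)
      refine ⟨fun i => ⟨u i / (p ^ n - 1), hlt i⟩, Finset.mem_univ _, ?_, heq⟩
      rw [hval, heq]
      exact hne
    · intro w _ _
      rw [hval]
  have hprod : ∀ w : Fin d → Fin (D + 1), ∏ i, ((p : O) ^ n + -ind w i) =
      ∑ J : Finset (Fin d), (-1) ^ (d - J.card) * ((p : O) ^ n) ^ J.card *
        (if ∀ i ∉ J, w i ≠ 0 then 1 else 0) := by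
    intro w
    rw [Finset.prod_add, Finset.powerset_univ]
    refine Finset.sum_congr rfl fun J _ => ?_
    rw [Finset.prod_const]
    have h1 : ∏ i ∈ Finset.univ \ J, (-ind w i) =
        (-1) ^ (d - J.card) * (if ∀ i ∉ J, w i ≠ 0 then 1 else 0) := by
      have h2 : ∀ i, -ind w i = (-1) * ind w i := fun i => by ring
      simp only [h2]
      rw [Finset.prod_mul_distrib, Finset.prod_const, Finset.card_univ_diff, Fintype.card_fin]
      congr 1
      split_ifs with h3
      · refine Finset.prod_eq_one fun i hi => ?_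
        have h4 : i ∉ J := (Finset.mem_sdiff.mp hi).2
        simp [ind, h3 i h4]
      · push Not at h3
        obtain ⟨i, hi, hwi⟩ := h3
        refine Finset.prod_eq_zero (i := i) ?_ ?_
        · exact Finset.mem_sdiff.mpr ⟨Finset.mem_univ _, hi⟩
        · simp [ind, hwi]
    rw [h1]
    ring
  rw [hL, hL2]
  simp only [hprod, Finset.mul_sum]
  rw [Finset.sum_comm]
  refine Finset.sum_congr rfl fun J _ => ?_
  have h5 : ∀ v : Idx d D J, ex v = xw v.1 := fun v => rfl
  simp only [h5]
  have h6 : ∑ w : Fin d → Fin (D + 1), ((coeff ((p ^ n - 1) • xw w) G : ℤ) : O) *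
      ((-1) ^ (d - J.card) * ((p : O) ^ n) ^ J.card * if ∀ i ∉ J, w i ≠ 0 then 1 else 0) =
      ∑ w ∈ Finset.univ.filter (fun w : Fin d → Fin (D + 1) => ∀ i ∉ J, w i ≠ 0),
        (-1) ^ (d - J.card) * ((p : O) ^ n) ^ J.card *
          ((coeff ((p ^ n - 1) • xw w) G : ℤ) : O) := by
    rw [Finset.sum_filter]
    refine Finset.sum_congr rfl fun w _ => ?_
    split_ifs
    · ring
    · ring
  rw [h6]
  exact Finset.sum_subtype _ (fun w => by simp) _

end Pool.Agent.F2TF
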