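import Pool.Agent.Lib.MP_305fdd_al.F2.TF.P.b9

set_option autoImplicit false

namespace Pool.Agent.F2TF

open MvPolynomial Matrix
open Pool.Agent.CC (IsTR)

/-- [TF c6] -/
theorem p_phione (h_points : S_points) (h_xfin : S_xfin) (h_phichar : S_phichar)
    (h_permrev : S_permrev) : S_phione := by
  classical
  intro p m hp B _ _ ev hB hm _ r b μ hb H hH K _ _ _ M N hM hdiv k hk
  haveI : Module.Finite (Pol p m) B := by
    refine ⟨⟨Finset.univ.image b, ?_⟩⟩
    rw [eq_top_iff]
    rintro x -
    rw [← hb x]
    refine Submodule.sum_mem _ fun j _ => Submodule.smul_mem _ _ (Submodule.subset_span ?_)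
    simp
  letI : Algebra (ZMod p) K := ZMod.algebra K p
  haveI := h_xfin p M m B K hM
  letI : Fintype (XPt p M m B K) := Fintype.ofFinite _
  let π : XPt p M m B K → XPt p M m B K := fun x =>
    ⟨(frobenius K p).comp x.1, fun i => by
      have := x.2 i
      simp only [RingHom.comp_apply, frobenius_def]
      rw [← pow_mul, mul_comm, pow_mul, this]⟩
  have hπ : ∀ (n : ℕ) (x : XPt p M m B K) (c : B), (π^[n] x).1 c = x.1 c ^ p ^ n := by
    intro n
    induction n with
    | zero => intro x c; simp
    | succ n ih =>
      intro x c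
      rw [Function.iterate_succ_apply, ih]
      have : (π x).1 c = x.1 c ^ p := rfl
      rw [this, ← pow_mul, pow_succ']
  rw [h_phichar p M m r B K b μ hb H hH hM]
  have hperm : permMat p M m B K K =
      (Matrix.map (fun x x' : XPt p M m B K => if x' = π x then (1 : ℤ) else 0)
        (Int.castRingHom K) : Matrix (XPt p M m B K) (XPt p M m B K) K) := by
    ext x x'
    have h1 : (∀ c, x'.1 c = x.1 c ^ p) ↔ x' = π x := by
      constructor
      · intro h
        exact Subtype.ext (RingHom.ext h)
      · rintro rfl c
        rfl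
    simp only [permMat, Matrix.map_apply, h1]
    split_ifs <;> simp
  rw [hperm, charpolyRev_map, Polynomial.coeff_map,
    h_permrev (XPt p M m B K) π N ((p : ℤ) ^ m) ?_ k hk]
  · have hpm : ((p : K) ^ m) = 0 := by
      rw [CharP.cast_eq_zero, zero_pow hm]
    rw [Polynomial.coeff_sub, Polynomial.coeff_one, Polynomial.coeff_C_mul, Polynomial.coeff_X]
    rcases k with _ | k
    · simp
    · simp only [Nat.add_eq_zero_iff, one_ne_zero, and_false, if_false, zero_sub, map_neg]
      split_ifs
      · rw [mul_one, eq_intCast]
        push_cast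
        rw [hpm, neg_zero]
      · simp
  · intro n hn1 hnN
    have hn0 : n ≠ 0 := by omega
    have hcard := h_points p m B ev hB K n hn0
    have hfixM : ∀ z : K, z ^ p ^ n = z → z ^ p ^ M = z := by
      intro z hz
      obtain ⟨c, rfl⟩ := hdiv n hn1 hnN
      have : ∀ c : ℕ, z ^ p ^ (n * c) = z := by
        intro c
        induction c with
        | zero => simp
        | succ c ih => rw [Nat.mul_succ, pow_add, pow_mul, ih, hz]
      exact this c
    have he : Nat.card {x : XPt p M m B K // π^[n] x = x} =
        Nat.card {x : B →+* K // ∀ b, x b ^ (p ^ n) = x b} := by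
      refine Nat.card_congr
        { toFun := fun x => ⟨x.1.1, fun c => ?_⟩
          invFun := fun x => ⟨⟨x.1, fun i => hfixM _ (x.2 _)⟩, ?_⟩
          left_inv := fun x => rfl
          right_inv := fun x => rfl }
      · rw [← hπ, x.2]
      · apply Subtype.ext
        ext c
        rw [hπ]
        exact x.2 c
    rw [he, hcard]
    push_cast
    rw [← pow_mul]

end Pool.Agent.F2TF
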